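import Mathlib

open MeasureTheory Set Filter Topology Polynomial

namespace Pool.Agent.Results.MP_bff676_an.CarrierCapacity

noncomputable section

/-- Gauss map orbit: `tail x 0 = x` and `tail x (k+1)` is the fractional part of `1 / tail x k`
(with `1 / 0 = 0`, so the orbit stays at `0` once the continued fraction has terminated). -/
def tail (x : ℝ) : ℕ → ℝ
  | 0 => x
  | k + 1 => Int.fract (1 / tail x k)

/-- The partial quotient `a_{k+1}` of `x = [0; a_1, a_2, …]`. -/
def digit (x : ℝ) (k : ℕ) : ℕ := ⌊1 / tail x k⌋₊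

/-- `a_1 + ⋯ + a_k`. -/
def digitSum (x : ℝ) (k : ℕ) : ℕ := ∑ i ∈ Finset.range k, digit x i

/-- The term `(-1)^{k} / 2^{a_1 + ⋯ + a_{k+1}}`, present only if the continued fraction of `x`
has a `(k+1)`-st partial quotient. -/
def term (x : ℝ) (k : ℕ) : ℝ :=
  if tail x k = 0 then 0 else (-1 : ℝ) ^ k / 2 ^ digitSum x (k + 1)

/-- Minkowski's question mark function on `[0,1]`. -/
def qm (x : ℝ) : ℝ := if x = 0 then 0 else if x = 1 then 1 else 2 * ∑' k, term x k

/-- auxiliary: the series for every `x`. -/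
def Q (x : ℝ) : ℝ := 2 * ∑' k, term x k

lemma tail_succ' (x : ℝ) (k : ℕ) : tail x (k + 1) = tail (Int.fract (1 / x)) k := by
  induction k with
  | zero => rfl
  | succ k ih => rw [tail, ih]; rfl

lemma tail_zero (k : ℕ) : tail 0 k = 0 := by
  induction k with
  | zero => rfl
  | succ k ih => rw [tail, ih]; simp

lemma tail_mem {x : ℝ} (hx : x ∈ Icc (0:ℝ) 1) (k : ℕ) : tail x k ∈ Icc (0:ℝ) 1 := by
  cases k with
  | zero => exact hx
  | succ k => rw [tail]; exact ⟨Int.fract_nonneg _, (Int.fract_lt_one _).le⟩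

lemma tail_ne_prev {x : ℝ} {k : ℕ} (h : tail x (k + 1) ≠ 0) : tail x k ≠ 0 := by
  intro h0
  apply h
  rw [tail, h0]; simp

lemma digit_pos {x : ℝ} (hx : x ∈ Icc (0:ℝ) 1) {k : ℕ} (h : tail x k ≠ 0) : 1 ≤ digit x k := by
  have h1 := tail_mem hx k
  have h2 : 0 < tail x k := lt_of_le_of_ne h1.1 (Ne.symm h)
  unfold digit
  rw [Nat.one_le_floor_iff]
  rw [le_div_iff₀ h2]; linarith [h1.2]

lemma digitSum_ge {x : ℝ} (hx : x ∈ Icc (0:ℝ) 1) {k : ℕ} (h : tail x k ≠ 0) :
    k + 1 ≤ digitSum x (k + 1) := by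
  induction k with
  | zero =>
    unfold digitSum
    simpa using digit_pos hx h
  | succ k ih =>
    have h1 := ih (tail_ne_prev h)
    have h2 := digit_pos hx h
    unfold digitSum at h1 ⊢
    rw [Finset.sum_range_succ]
    omega

lemma term_abs {x : ℝ} (hx : x ∈ Icc (0:ℝ) 1) (k : ℕ) : |term x k| ≤ (1/2:ℝ) ^ (k + 1) := by
  unfold term
  split_ifs with h
  · simp
  · rw [abs_div, abs_pow, abs_neg, abs_one, one_pow, abs_of_pos (by positivity), one_div_pow]
    apply one_div_le_one_div_of_le (by positivity)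
    exact pow_le_pow_right₀ (by norm_num) (digitSum_ge hx h)

lemma hasSum_half : HasSum (fun k : ℕ => (1/2:ℝ) ^ (k + 1)) 1 := by
  have := hasSum_geometric_two' (1:ℝ)
  convert this using 2 with k
  rw [pow_succ, one_div_pow]; ring

lemma term_summable {x : ℝ} (hx : x ∈ Icc (0:ℝ) 1) : Summable (term x) :=
  Summable.of_norm_bounded hasSum_half.summable (fun k => by rw [Real.norm_eq_abs]; exact term_abs hx k)

lemma Q_abs {x : ℝ} (hx : x ∈ Icc (0:ℝ) 1) : |Q x| ≤ 2 := by
  have h : |∑' k, term x k| ≤ 1 := by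
    have := tsum_of_norm_bounded hasSum_half (fun k => by rw [Real.norm_eq_abs]; exact term_abs hx k)
    simpa using this
  unfold Q
  rw [abs_mul, abs_two]; linarith

lemma digitSum_succ' (x : ℝ) (k : ℕ) :
    digitSum x (k + 1) = digit x 0 + digitSum (Int.fract (1 / x)) k := by
  unfold digitSum
  rw [Finset.sum_range_succ', add_comm]
  congr 1
  apply Finset.sum_congr rfl
  intro i _
  unfold digit
  rw [tail_succ']

lemma term_succ (x : ℝ) (k : ℕ) :
    term x (k + 1) = -(1 / 2 ^ digit x 0) * term (Int.fract (1 / x)) k := by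
  unfold term
  rw [tail_succ', digitSum_succ']
  split_ifs with h
  · simp
  · simp only [pow_add, pow_one]; field_simp

lemma Q_rec {x : ℝ} (hx : x ∈ Icc (0:ℝ) 1) (h0 : x ≠ 0) :
    Q x = 1 / 2 ^ digit x 0 * (2 - Q (Int.fract (1 / x))) := by
  unfold Q
  rw [(term_summable hx).tsum_eq_zero_add]
  simp_rw [term_succ]
  rw [tsum_mul_left]
  have : term x 0 = 1 / 2 ^ digit x 0 := by
    unfold term
    have : tail x 0 = x := rfl
    rw [this, if_neg h0, digitSum_succ']
    simp [digitSum]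
  rw [this]; ring

lemma fract_mem (y : ℝ) : Int.fract y ∈ Icc (0:ℝ) 1 := ⟨Int.fract_nonneg _, (Int.fract_lt_one _).le⟩

lemma Q_zero : Q 0 = 0 := by
  unfold Q
  have : ∀ k, term 0 k = 0 := fun k => by unfold term; rw [if_pos (tail_zero k)]
  simp [this]

lemma Q_nonneg {x : ℝ} (hx : x ∈ Icc (0:ℝ) 1) : 0 ≤ Q x := by
  by_cases h : x = 0
  · rw [h, Q_zero]
  · rw [Q_rec hx h]
    have := (abs_le.mp (Q_abs (fract_mem (1/x)))).2
    exact mul_nonneg (by positivity) (by linarith)

lemma Q_le_one {x : ℝ} (hx : x ∈ Icc (0:ℝ) 1) : Q x ≤ 1 := by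
  by_cases h : x = 0
  · rw [h, Q_zero]; norm_num
  · rw [Q_rec hx h]
    have h1 := Q_nonneg (fract_mem (1/x))
    have h1' := (abs_le.mp (Q_abs (fract_mem (1/x)))).2
    have h2 : 1 ≤ digit x 0 := digit_pos hx (by exact h)
    have h3 : (1:ℝ) / 2 ^ digit x 0 ≤ 1 / 2 := by
      apply one_div_le_one_div_of_le (by norm_num)
      calc (2:ℝ) = 2 ^ 1 := by norm_num
        _ ≤ _ := pow_le_pow_right₀ (by norm_num) h2
    have h4 : (0:ℝ) < 1 / 2 ^ digit x 0 := by positivity
    nlinarith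

lemma Q_one : Q 1 = 1 := by
  rw [Q_rec ⟨zero_le_one, le_rfl⟩ one_ne_zero]
  have h1 : Int.fract (1 / (1:ℝ)) = 0 := by simp
  have h2 : digit 1 0 = 1 := by unfold digit tail; simp
  rw [h1, h2, Q_zero]; norm_num

lemma qm_eq {x : ℝ} : qm x = Q x := by
  unfold qm
  split_ifs with h h'
  · rw [h, Q_zero]
  · rw [h', Q_one]
  · rfl

lemma Q_A {x : ℝ} (hx : x ∈ Icc (0:ℝ) 1) : Q (x / (1 + x)) = Q x / 2 := by
  by_cases h : x = 0
  · simp [h, Q_zero]
  have hpos : 0 < x := lt_of_le_of_ne hx.1 (Ne.symm h)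
  have hy : x / (1 + x) ∈ Icc (0:ℝ) 1 := ⟨by positivity, by rw [div_le_one (by positivity)]; linarith⟩
  have hy0 : x / (1 + x) ≠ 0 := by positivity
  have e : 1 / (x / (1 + x)) = 1 / x + 1 := by field_simp; try ring
  rw [Q_rec hy hy0, Q_rec hx h]
  have h1 : Int.fract (1 / (x / (1 + x))) = Int.fract (1 / x) := by
    rw [e, Int.fract_add_one]
  have h2 : digit (x / (1 + x)) 0 = digit x 0 + 1 := by
    unfold digit tail
    rw [e, Nat.floor_add_one (by positivity)]
  rw [h1, h2, pow_succ]; field_simp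

lemma Q_B {x : ℝ} (hx : x ∈ Icc (0:ℝ) 1) : Q (1 / (1 + x)) = 1 - Q x / 2 := by
  have hpos : 0 < 1 + x := by linarith [hx.1]
  have hy : 1 / (1 + x) ∈ Icc (0:ℝ) 1 := ⟨by positivity, by rw [div_le_one (by positivity)]; linarith [hx.1]⟩
  have hy0 : 1 / (1 + x) ≠ 0 := by positivity
  have e : 1 / (1 / (1 + x)) = x + 1 := by field_simp; try ring
  rw [Q_rec hy hy0]
  rcases eq_or_lt_of_le hx.2 with h | h
  · subst h
    have h1 : Int.fract (1 / (1 / (1 + (1:ℝ)))) = 0 := by
      rw [e]; norm_num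
    have h2 : digit (1 / (1 + 1)) 0 = 2 := by
      unfold digit tail
      rw [e]; norm_num
    rw [h1, h2, Q_zero, Q_one]; norm_num
  · have h1 : Int.fract (1 / (1 / (1 + x))) = x := by
      rw [e, Int.fract_add_one, Int.fract_eq_self]; exact ⟨hx.1, h⟩
    have h2 : digit (1 / (1 + x)) 0 = 1 := by
      unfold digit tail
      rw [e, Nat.floor_eq_iff (by linarith [hx.1])]
      constructor <;> push_cast <;> linarith [hx.1]
    rw [h1, h2]; ring

/-! ### Modulus of continuity of the question mark function -/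

lemma Q_le_two_mul_aux (n : ℕ) : ∀ v ∈ Icc (0:ℝ) 1, 1 / ((n:ℝ) + 1) ≤ v → Q v ≤ 2 * v := by
  induction n with
  | zero =>
    intro v hv h
    have := Q_le_one hv
    norm_num at h
    linarith
  | succ n ih =>
    intro v hv h
    have h1 := Q_le_one hv
    by_cases h2 : 1 / 2 ≤ v
    · linarith
    push Not at h2
    have hv0 : 0 < v := lt_of_lt_of_le (by positivity) h
    have h1v : 0 < 1 - v := by linarith
    have hv' : v / (1 - v) ∈ Icc (0:ℝ) 1 :=
      ⟨by positivity, by rw [div_le_one h1v]; linarith⟩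
    have h3 : 1 / ((n:ℝ) + 1) ≤ v / (1 - v) := by
      rw [div_le_div_iff₀ (by positivity) h1v]
      push_cast at h
      rw [div_le_iff₀ (by positivity)] at h
      nlinarith
    have h4 := ih _ hv' h3
    have h5 := Q_A hv'
    have h6 : v / (1 - v) / (1 + v / (1 - v)) = v := by field_simp; try ring
    rw [h6] at h5
    have h7 : v / (1 - v) ≤ 2 * v := by
      rw [div_le_iff₀ h1v]; nlinarith
    linarith

lemma Q_le_two_mul {v : ℝ} (hv : v ∈ Icc (0:ℝ) 1) : Q v ≤ 2 * v := by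
  rcases eq_or_lt_of_le hv.1 with h | h
  · rw [← h, Q_zero]; norm_num
  · obtain ⟨n, hn⟩ := exists_nat_gt (1 / v)
    apply Q_le_two_mul_aux n v hv
    rw [div_le_iff₀ (by positivity)]
    rw [div_lt_iff₀ h] at hn
    nlinarith

lemma one_sub_Q_le {u : ℝ} (hu : u ∈ Icc (0:ℝ) 1) : 1 - Q u ≤ 2 * (1 - u) := by
  by_cases h : 1 / 2 ≤ u
  · have hu0 : 0 < u := by linarith
    have hv : 1 / u - 1 ∈ Icc (0:ℝ) 1 := by
      constructor
      · have : 1 ≤ 1 / u := by rw [le_div_iff₀ hu0]; linarith [hu.2]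
        linarith
      · have : 1 / u ≤ 2 := by rw [div_le_iff₀ hu0]; linarith
        linarith
    have h1 := Q_B hv
    have h2 : 1 / (1 + (1 / u - 1)) = u := by field_simp; try ring
    rw [h2] at h1
    have h3 := Q_le_two_mul hv
    have h4 : 1 / u - 1 ≤ 2 * (1 - u) := by
      have : 1 / u - 1 = (1 - u) / u := by field_simp
      rw [this, div_le_iff₀ hu0]
      nlinarith [hu.2]
    linarith
  · push Not at h
    have := Q_nonneg hu
    linarith

lemma Q_holder (k : ℕ) : ∀ x ∈ Icc (0:ℝ) 1, ∀ y ∈ Icc (0:ℝ) 1, x ≤ y → y - x ≤ (1/4:ℝ) ^ k →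
    |Q y - Q x| ≤ 8 * (1/2:ℝ) ^ k := by
  induction k with
  | zero =>
    intro x hx y hy _ _
    have h1 := Q_nonneg hx
    have h2 := Q_nonneg hy
    have h3 := Q_le_one hx
    have h4 := Q_le_one hy
    rw [abs_le]; constructor <;> norm_num <;> linarith
  | succ k ih =>
    intro x hx y hy hxy h
    have hk : (0:ℝ) < (1/4) ^ k := by positivity
    have hk4 : (1/4:ℝ) ^ (k+1) = (1/4) ^ k / 4 := by rw [pow_succ]; ring
    have hk2 : (1/2:ℝ) ^ (k+1) = (1/2) ^ k / 2 := by rw [pow_succ]; ring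
    have hle : (1/4:ℝ) ^ k ≤ (1/2) ^ k := pow_le_pow_left₀ (by norm_num) (by norm_num) k
    rw [hk4] at h
    rw [hk2]
    by_cases h1 : y ≤ 1 / 2
    · -- both in the left half
      have e1 : 0 < 1 - x := by linarith
      have e2 : 0 < 1 - y := by linarith
      have hx' : x / (1 - x) ∈ Icc (0:ℝ) 1 :=
        ⟨div_nonneg hx.1 e1.le, by rw [div_le_one e1]; linarith⟩
      have hy' : y / (1 - y) ∈ Icc (0:ℝ) 1 :=
        ⟨div_nonneg hy.1 e2.le, by rw [div_le_one e2]; linarith⟩
      have hd : y / (1 - y) - x / (1 - x) = (y - x) / ((1 - x) * (1 - y)) := by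
        field_simp; ring
      have hp : 1 / 4 ≤ (1 - x) * (1 - y) := by nlinarith
      have h2 := ih _ hx' _ hy' (by
        have : 0 ≤ (y - x) / ((1 - x) * (1 - y)) := div_nonneg (by linarith) (by positivity)
        linarith) (by
        rw [hd, div_le_iff₀ (by positivity)]; nlinarith)
      have q1 := Q_A hx'
      have q2 := Q_A hy'
      have f1 : x / (1 - x) / (1 + x / (1 - x)) = x := by field_simp; try ring
      have f2 : y / (1 - y) / (1 + y / (1 - y)) = y := by field_simp; try ring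
      rw [f1] at q1
      rw [f2] at q2
      rw [q1, q2, ← sub_div, abs_div, abs_two]
      linarith
    push Not at h1
    have e2 : 0 < y := by linarith
    have hy' : 1 / y - 1 ∈ Icc (0:ℝ) 1 := by
      constructor
      · have : 1 ≤ 1 / y := by rw [le_div_iff₀ e2]; linarith [hy.2]
        linarith
      · have : 1 / y ≤ 2 := by rw [div_le_iff₀ e2]; linarith
        linarith
    have f2 : 1 / (1 + (1 / y - 1)) = y := by field_simp; try ring
    have q2 := Q_B hy'
    rw [f2] at q2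
    by_cases h2 : 1 / 2 ≤ x
    · have e1 : 0 < x := by linarith
      have hx' : 1 / x - 1 ∈ Icc (0:ℝ) 1 := by
        constructor
        · have : 1 ≤ 1 / x := by rw [le_div_iff₀ e1]; linarith [hx.2]
          linarith
        · have : 1 / x ≤ 2 := by rw [div_le_iff₀ e1]; linarith
          linarith
      have f1 : 1 / (1 + (1 / x - 1)) = x := by field_simp; try ring
      have q1 := Q_B hx'
      rw [f1] at q1
      have hd : (1 / x - 1) - (1 / y - 1) = (y - x) / (x * y) := by field_simp; try ring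
      have hp : 1 / 4 ≤ x * y := by nlinarith
      have h3 := ih _ hy' _ hx' (by
        have : 0 ≤ (y - x) / (x * y) := div_nonneg (by linarith) (by positivity)
        linarith) (by
        rw [hd, div_le_iff₀ (by positivity)]; nlinarith)
      have : Q y - Q x = (Q (1 / x - 1) - Q (1 / y - 1)) / 2 := by rw [q1, q2]; ring
      rw [this, abs_div, abs_two]
      linarith
    · push Not at h2
      have e1 : 0 < 1 - x := by linarith
      have hx' : x / (1 - x) ∈ Icc (0:ℝ) 1 :=
        ⟨div_nonneg hx.1 e1.le, by rw [div_le_one e1]; linarith⟩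
      have q1 := Q_A hx'
      have f1 : x / (1 - x) / (1 + x / (1 - x)) = x := by field_simp; try ring
      rw [f1] at q1
      have g1 := one_sub_Q_le hx'
      have g2 := one_sub_Q_le hy'
      have l1 := Q_le_one hx'
      have l2 := Q_le_one hy'
      have m1 : 1 - x / (1 - x) ≤ 4 * (1/2 - x) := by
        have : 1 - x / (1 - x) = (1 - 2 * x) / (1 - x) := by field_simp; try ring
        rw [this, div_le_iff₀ e1]; nlinarith
      have m2 : 1 - (1 / y - 1) ≤ 4 * (y - 1/2) := by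
        have : 1 - (1 / y - 1) = (2 * y - 1) / y := by field_simp; try ring
        rw [this, div_le_iff₀ e2]; nlinarith
      rw [abs_le]
      constructor <;> rw [q1, q2] <;> nlinarith

/-! ### The Minkowski measure -/

/-- `μ` has distribution function `q` on `[0,1]`. -/
def HasCDF (μ : Measure ℝ) : Prop := ∀ x ∈ Icc (0:ℝ) 1, μ (Icc 0 x) = ENNReal.ofReal (qm x)

set_option linter.unusedSectionVars false

section Meas

variable {μ : Measure ℝ} [IsProbabilityMeasure μ]

lemma mu_Icc (hμ : HasCDF μ) {x : ℝ} (hx : x ∈ Icc (0:ℝ) 1) : μ (Icc 0 x) = ENNReal.ofReal (Q x) := by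
  rw [hμ x hx, qm_eq]

lemma ae_mem (hμ : HasCDF μ) : ∀ᵐ x ∂μ, x ∈ Icc (0:ℝ) 1 := by
  have h := mu_Icc hμ (x := 1) ⟨zero_le_one, le_rfl⟩
  rw [Q_one, ENNReal.ofReal_one] at h
  have h2 := (mem_ae_iff_prob_eq_one (μ := μ) (s := Icc (0:ℝ) 1)
    measurableSet_Icc).mpr h
  exact h2

lemma mu_eq_zero' (hμ : HasCDF μ) {S : Set ℝ} (h : ∀ x ∈ Icc (0:ℝ) 1, x ∉ S) : μ S = 0 := by
  have h1 := ae_mem hμ
  rw [ae_iff] at h1
  exact measure_mono_null (fun x hx hx' => h x hx' hx) h1

lemma mu_eq_one' (hμ : HasCDF μ) {S : Set ℝ} (h : ∀ x ∈ Icc (0:ℝ) 1, x ∈ S) : μ S = 1 := by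
  have hS : ∀ᵐ x ∂μ, x ∈ S := (ae_mem hμ).mono h
  rw [← measure_univ (μ := μ)]
  apply measure_congr
  filter_upwards [hS] with x hx
  exact propext ⟨fun _ => trivial, fun _ => hx⟩

lemma mu_Ioc (hμ : HasCDF μ) {x y : ℝ} (hx : x ∈ Icc (0:ℝ) 1) (hy : y ∈ Icc (0:ℝ) 1) (hxy : x ≤ y) :
    μ (Ioc x y) = ENNReal.ofReal (Q y - Q x) := by
  have h : Ioc x y = Icc 0 y \ Icc 0 x := by
    ext t; simp only [mem_Ioc, Set.mem_sdiff, mem_Icc, not_and, not_le]
    constructor
    · rintro ⟨h1, h2⟩; exact ⟨⟨by linarith [hx.1], h2⟩, fun _ => h1⟩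
    · rintro ⟨⟨h1, h2⟩, h3⟩; exact ⟨h3 h1, h2⟩
  rw [h, measure_sdiff (Icc_subset_Icc_right hxy) measurableSet_Icc.nullMeasurableSet
    (measure_ne_top _ _), mu_Icc hμ hx, mu_Icc hμ hy, ENNReal.ofReal_sub _ (Q_nonneg hx)]

lemma mu_ball (hμ : HasCDF μ) {c : ℝ} (hc : c ∈ Icc (0:ℝ) 1) (k : ℕ) :
    μ {x | |x - c| ≤ (1/4:ℝ) ^ (k + 1)} ≤ ENNReal.ofReal (8 * (1/2:ℝ) ^ k) := by
  set r := (1/4:ℝ) ^ (k + 1) with hr
  have hr0 : 0 < r := by positivity
  have h4 : (1/4:ℝ) ^ k = 4 * r := by rw [hr, pow_succ]; ring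
  have hy : min 1 (c + r) ∈ Icc (0:ℝ) 1 := ⟨le_min zero_le_one (by linarith [hc.1]), min_le_left _ _⟩
  by_cases h : c - 2 * r ≤ 0
  · have hsub : {x | |x - c| ≤ r} ≤ᵐ[μ] Icc 0 (min 1 (c + r)) := by
      filter_upwards [ae_mem hμ] with x hx h1
      have h1' : |x - c| ≤ r := h1
      exact ⟨hx.1, le_min hx.2 (by linarith [(abs_le.mp h1').2])⟩
    refine (measure_mono_ae hsub).trans ?_
    rw [mu_Icc hμ hy]
    apply ENNReal.ofReal_le_ofReal
    have := Q_holder k 0 ⟨le_rfl, zero_le_one⟩ _ hy hy.1 (by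
      rw [h4]; linarith [min_le_right 1 (c + r)])
    rw [Q_zero, sub_zero] at this
    exact (le_abs_self _).trans this
  · push Not at h
    have hx' : c - 2 * r ∈ Icc (0:ℝ) 1 := ⟨h.le, by linarith [hc.2]⟩
    have hle : c - 2 * r ≤ min 1 (c + r) := le_min hx'.2 (by linarith)
    have hsub : {x | |x - c| ≤ r} ≤ᵐ[μ] Ioc (c - 2 * r) (min 1 (c + r)) := by
      filter_upwards [ae_mem hμ] with x hx h1
      have h1' : |x - c| ≤ r := h1
      have := abs_le.mp h1'
      exact ⟨by linarith, le_min hx.2 (by linarith)⟩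
    refine (measure_mono_ae hsub).trans ?_
    rw [mu_Ioc hμ hx' hy hle]
    apply ENNReal.ofReal_le_ofReal
    have := Q_holder k _ hx' _ hy hle (by rw [h4]; linarith [min_le_right 1 (c + r)])
    exact (le_abs_self _).trans this

lemma mu_singleton (hμ : HasCDF μ) (c : ℝ) : μ {c} = 0 := by
  by_cases hc : c ∈ Icc (0:ℝ) 1
  · have h1 : ∀ k : ℕ, μ {c} ≤ ENNReal.ofReal (8 * (1/2:ℝ) ^ k) := fun k =>
      (measure_mono (by intro x hx; simp only [mem_singleton_iff] at hx; subst hx; simp)).trans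
        (mu_ball hμ hc k)
    have h2 : Tendsto (fun k : ℕ => ENNReal.ofReal (8 * (1/2:ℝ) ^ k)) atTop (𝓝 (ENNReal.ofReal (8 * 0))) := by
      apply ENNReal.tendsto_ofReal
      exact (tendsto_pow_atTop_nhds_zero_of_lt_one (by norm_num) (by norm_num)).const_mul 8
    simp only [mul_zero, ENNReal.ofReal_zero] at h2
    exact le_antisymm (ge_of_tendsto' h2 h1) (zero_le)
  · have := ae_mem hμ
    rw [ae_iff] at this
    exact measure_mono_null (by intro x hx; simp only [mem_singleton_iff] at hx; subst hx; exact hc) this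

lemma noAtoms (hμ : HasCDF μ) : NullSingletonClass μ := ⟨mu_singleton hμ⟩

/-- left branch -/
def mA (x : ℝ) : ℝ := x / (1 + x)
/-- right branch -/
def mB (x : ℝ) : ℝ := 1 / (1 + x)

lemma mA_meas : Measurable mA := by unfold mA; fun_prop
lemma mB_meas : Measurable mB := by unfold mB; fun_prop

lemma two_mu (hμ : HasCDF μ) : (2 : ENNReal) • μ = μ.map mA + μ.map mB := by
  have := noAtoms hμ
  have : IsFiniteMeasure ((2 : ENNReal) • μ) := Measure.smul_finite _ (by norm_num)
  apply Measure.ext_of_Iic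
  intro a
  have hae := ae_mem hμ
  rw [Measure.smul_apply, smul_eq_mul, Measure.add_apply, Measure.map_apply mA_meas measurableSet_Iic,
    Measure.map_apply mB_meas measurableSet_Iic]
  rcases lt_or_ge a 0 with ha | ha
  · have e1 : μ (Iic a) = 0 := by
      apply mu_eq_zero' hμ
      intro x hx h
      have : x ≤ a := h
      linarith [hx.1]
    have e2 : μ (mA ⁻¹' Iic a) = 0 := by
      apply mu_eq_zero' hμ
      intro x hx h
      have h' : x / (1 + x) ≤ a := h
      have : 0 ≤ x / (1 + x) := div_nonneg hx.1 (by linarith [hx.1])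
      linarith
    have e3 : μ (mB ⁻¹' Iic a) = 0 := by
      apply mu_eq_zero' hμ
      intro x hx h
      have h' : 1 / (1 + x) ≤ a := h
      have : 0 < 1 / (1 + x) := div_pos one_pos (by linarith [hx.1])
      linarith
    rw [e1, e2, e3]; simp
  rcases le_or_gt 1 a with ha1 | ha1
  · have e1 : μ (Iic a) = 1 := by
      apply mu_eq_one' hμ
      intro x hx
      show x ≤ a
      linarith [hx.2]
    have e2 : μ (mA ⁻¹' Iic a) = 1 := by
      apply mu_eq_one' hμ
      intro x hx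
      show x / (1 + x) ≤ a
      rw [div_le_iff₀ (by linarith [hx.1])]; nlinarith [hx.1, hx.2]
    have e3 : μ (mB ⁻¹' Iic a) = 1 := by
      apply mu_eq_one' hμ
      intro x hx
      show 1 / (1 + x) ≤ a
      rw [div_le_iff₀ (by linarith [hx.1])]; nlinarith [hx.1, hx.2]
    rw [e1, e2, e3]; norm_num
  have ha' : a ∈ Icc (0:ℝ) 1 := ⟨ha, ha1.le⟩
  have e1 : μ (Iic a) = ENNReal.ofReal (Q a) := by
    rw [← mu_Icc hμ ha']
    apply measure_congr
    filter_upwards [hae] with x hx
    apply propext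
    exact ⟨fun h => ⟨hx.1, h⟩, fun h => h.2⟩
  rcases lt_or_ge a (1/2) with h2 | h2
  · have h1a : 0 < 1 - a := by linarith
    have hs : a / (1 - a) ∈ Icc (0:ℝ) 1 := ⟨div_nonneg ha h1a.le, by rw [div_le_one h1a]; linarith⟩
    have e2 : μ (mA ⁻¹' Iic a) = ENNReal.ofReal (Q (a / (1 - a))) := by
      rw [← mu_Icc hμ hs]
      apply measure_congr
      filter_upwards [hae] with x hx
      apply propext
      have hx1 : 0 < 1 + x := by linarith [hx.1]
      have : (mA x ≤ a) ↔ x ≤ a / (1 - a) := by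
        unfold mA
        rw [div_le_iff₀ hx1, le_div_iff₀ h1a]
        constructor <;> intro h <;> linarith
      exact ⟨fun h => ⟨hx.1, this.mp h⟩, fun h => this.mpr h.2⟩
    have e3 : μ (mB ⁻¹' Iic a) = 0 := by
      apply mu_eq_zero' hμ
      intro x hx h
      have h' : 1 / (1 + x) ≤ a := h
      rw [div_le_iff₀ (by linarith [hx.1])] at h'
      nlinarith [hx.1, hx.2]
    have q1 := Q_A hs
    have f1 : a / (1 - a) / (1 + a / (1 - a)) = a := by field_simp; try ring
    rw [f1] at q1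
    rw [e1, e2, e3, q1, add_zero, ← ENNReal.ofReal_ofNat, ← ENNReal.ofReal_mul (by norm_num)]
    congr 1; ring
  · have ha0 : 0 < a := by linarith
    have hs : 1 / a - 1 ∈ Icc (0:ℝ) 1 := by
      constructor
      · have : 1 ≤ 1 / a := by rw [le_div_iff₀ ha0]; linarith
        linarith
      · have : 1 / a ≤ 2 := by rw [div_le_iff₀ ha0]; linarith
        linarith
    have e2 : μ (mA ⁻¹' Iic a) = 1 := by
      apply mu_eq_one' hμ
      intro x hx
      show x / (1 + x) ≤ a
      rw [div_le_iff₀ (by linarith [hx.1])]; nlinarith [hx.1, hx.2]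
    have e3 : μ (mB ⁻¹' Iic a) = ENNReal.ofReal (1 - Q (1 / a - 1)) := by
      have hq1 : 1 - Q (1 / a - 1) = Q 1 - Q (1 / a - 1) := by rw [Q_one]
      rw [hq1, ← mu_Ioc hμ hs ⟨zero_le_one, le_rfl⟩ hs.2]
      rw [measure_congr (Ioc_ae_eq_Icc (μ := μ) (a := 1 / a - 1) (b := 1))]
      apply measure_congr
      filter_upwards [hae] with x hx
      apply propext
      have hx1 : 0 < 1 + x := by linarith [hx.1]
      have : (mB x ≤ a) ↔ 1 / a - 1 ≤ x := by
        unfold mB
        rw [div_le_iff₀ hx1, sub_le_iff_le_add, div_le_iff₀ ha0]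
        constructor <;> intro h <;> linarith
      exact ⟨fun h => ⟨this.mp h, hx.2⟩, fun h => this.mpr h.1⟩
    have q1 := Q_B hs
    have f1 : 1 / (1 + (1 / a - 1)) = a := by field_simp; try ring
    rw [f1] at q1
    have l1 := Q_le_one hs
    rw [e1, e2, e3, q1, ← ENNReal.ofReal_ofNat, ← ENNReal.ofReal_mul (by norm_num),
      ← ENNReal.ofReal_one, ← ENNReal.ofReal_add (by norm_num) (by linarith)]
    congr 1; ring

lemma map_A_le (hμ : HasCDF μ) : μ.map mA ≤ (2 : ENNReal) • μ := by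
  rw [two_mu hμ]; exact Measure.le_add_right le_rfl

lemma map_B_le (hμ : HasCDF μ) : μ.map mB ≤ (2 : ENNReal) • μ := by
  rw [two_mu hμ]; exact Measure.le_add_left le_rfl

end Meas

/-! ### Logarithmic potential of the Minkowski measure -/

lemma neg_log_le {u : ℝ} (h0 : 0 < u) (_h1 : u ≤ 1) :
    ENNReal.ofReal (-Real.log u) ≤
      ∑' k : ℕ, (if u ≤ (1/4:ℝ) ^ k then ENNReal.ofReal (Real.log 4) else 0) := by
  have hl : 0 < Real.log 4 := Real.log_pos (by norm_num)
  set m := ⌊-Real.log u / Real.log 4⌋₊ with hm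
  have h2 : -Real.log u / Real.log 4 < (m:ℝ) + 1 := Nat.lt_floor_add_one _
  have h3 : -Real.log u ≤ ((m:ℝ) + 1) * Real.log 4 := by
    rw [div_lt_iff₀ hl] at h2; exact h2.le
  have hnn : 0 ≤ -Real.log u / Real.log 4 := by
    apply div_nonneg _ hl.le
    have := Real.log_nonpos h0.le _h1
    linarith
  calc ENNReal.ofReal (-Real.log u) ≤ ENNReal.ofReal (((m:ℝ) + 1) * Real.log 4) :=
        ENNReal.ofReal_le_ofReal h3
    _ = ∑ _k ∈ Finset.range (m + 1), ENNReal.ofReal (Real.log 4) := by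
        rw [Finset.sum_const, Finset.card_range, nsmul_eq_mul, ENNReal.ofReal_mul (by positivity)]
        congr 1
        rw [← ENNReal.ofReal_natCast]; push_cast; rfl
    _ = ∑ k ∈ Finset.range (m + 1), (if u ≤ (1/4:ℝ) ^ k then ENNReal.ofReal (Real.log 4) else 0) := by
        apply Finset.sum_congr rfl
        intro k hk
        rw [if_pos]
        have hk' : k ≤ m := by simpa [Nat.lt_succ_iff] using hk
        have h4 : (k:ℝ) ≤ -Real.log u / Real.log 4 :=
          (Nat.cast_le.mpr hk').trans (Nat.floor_le hnn)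
        rw [le_div_iff₀ hl] at h4
        rw [← Real.log_le_log_iff h0 (by positivity), Real.log_pow]
        rw [one_div, Real.log_inv]; linarith
    _ ≤ _ := ENNReal.sum_le_tsum _

/-- a bound for all potentials `∫ log (1/|x-y|) dμ(x)`, `y ∈ [0,1]` -/
def C0 : ℝ := 32 * Real.log 4

lemma C0_nonneg : 0 ≤ C0 := by unfold C0; positivity

section Pot

variable {μ : Measure ℝ} [IsProbabilityMeasure μ]

lemma mu_ball' (hμ : HasCDF μ) {c : ℝ} (hc : c ∈ Icc (0:ℝ) 1) (k : ℕ) :
    μ {x | |x - c| ≤ (1/4:ℝ) ^ k} ≤ ENNReal.ofReal (16 * (1/2:ℝ) ^ k) := by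
  cases k with
  | zero =>
    refine prob_le_one.trans ?_
    rw [← ENNReal.ofReal_one]
    apply ENNReal.ofReal_le_ofReal; norm_num
  | succ k =>
    refine (mu_ball hμ hc k).trans ?_
    apply ENNReal.ofReal_le_ofReal
    rw [pow_succ]; linarith

lemma ae_ne (hμ : HasCDF μ) (y : ℝ) : ∀ᵐ x ∂μ, x ≠ y := by
  rw [ae_iff]
  simpa using mu_singleton hμ y

lemma pot_lint (hμ : HasCDF μ) {y : ℝ} (hy : y ∈ Icc (0:ℝ) 1) :
    ∫⁻ x, ENNReal.ofReal (-Real.log |x - y|) ∂μ ≤ ENNReal.ofReal C0 := by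
  have hmeas : ∀ k : ℕ, MeasurableSet {x : ℝ | |x - y| ≤ (1/4:ℝ) ^ k} := fun k =>
    measurableSet_le (by fun_prop) measurable_const
  calc ∫⁻ x, ENNReal.ofReal (-Real.log |x - y|) ∂μ
      ≤ ∫⁻ x, ∑' k : ℕ, (if |x - y| ≤ (1/4:ℝ) ^ k then ENNReal.ofReal (Real.log 4) else 0) ∂μ := by
        apply lintegral_mono_ae
        filter_upwards [ae_mem hμ, ae_ne hμ y] with x hx hne
        apply neg_log_le (abs_pos.mpr (sub_ne_zero.mpr hne))
        rw [abs_le]; constructor <;> linarith [hx.1, hx.2, hy.1, hy.2]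
    _ = ∑' k : ℕ, ∫⁻ x, (if |x - y| ≤ (1/4:ℝ) ^ k then ENNReal.ofReal (Real.log 4) else 0) ∂μ := by
        apply lintegral_tsum
        intro k
        exact (Measurable.ite (hmeas k) measurable_const measurable_const).aemeasurable
    _ ≤ ∑' k : ℕ, ENNReal.ofReal (16 * Real.log 4 * (1/2:ℝ) ^ k) := by
        apply ENNReal.tsum_le_tsum
        intro k
        have : ∀ x, (if |x - y| ≤ (1/4:ℝ) ^ k then ENNReal.ofReal (Real.log 4) else 0) =
            ({x : ℝ | |x - y| ≤ (1/4:ℝ) ^ k}).indicator (fun _ => ENNReal.ofReal (Real.log 4)) x := by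
          intro x; simp [indicator]
        simp_rw [this]
        rw [lintegral_indicator (hmeas k), setLIntegral_const]
        calc ENNReal.ofReal (Real.log 4) * μ {x : ℝ | |x - y| ≤ (1/4:ℝ) ^ k}
            ≤ ENNReal.ofReal (Real.log 4) * ENNReal.ofReal (16 * (1/2:ℝ) ^ k) := by
              gcongr; exact mu_ball' hμ hy k
          _ = _ := by
              rw [← ENNReal.ofReal_mul (Real.log_nonneg (by norm_num))]
              congr 1; ring
    _ = ENNReal.ofReal C0 := by
        rw [← ENNReal.ofReal_tsum_of_nonneg]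
        · congr 1
          rw [tsum_mul_left, tsum_geometric_two]; unfold C0; ring
        · intro k
          have : 0 ≤ Real.log 4 := Real.log_nonneg (by norm_num)
          positivity
        · exact (summable_geometric_two).mul_left _

lemma pot_integrable (hμ : HasCDF μ) {y : ℝ} (hy : y ∈ Icc (0:ℝ) 1) :
    Integrable (fun x => Real.log |x - y|) μ := by
  refine ⟨(Real.measurable_log.comp (by fun_prop)).aestronglyMeasurable, ?_⟩
  rw [hasFiniteIntegral_iff_norm]
  refine lt_of_le_of_lt ?_ (ENNReal.ofReal_lt_top (r := C0))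
  refine le_trans (lintegral_mono_ae ?_) (pot_lint hμ hy)
  filter_upwards [ae_mem hμ] with x hx
  apply ENNReal.ofReal_le_ofReal
  rw [Real.norm_eq_abs, abs_of_nonpos]
  apply Real.log_nonpos (abs_nonneg _)
  rw [abs_le]; constructor <;> linarith [hx.1, hx.2, hy.1, hy.2]

lemma pot_bound (hμ : HasCDF μ) {y : ℝ} (hy : y ∈ Icc (0:ℝ) 1) :
    -C0 ≤ ∫ x, Real.log |x - y| ∂μ := by
  have h1 : ∫ x, -Real.log |x - y| ∂μ ≤ C0 := by
    rw [integral_eq_lintegral_of_nonneg_ae]
    · exact ENNReal.toReal_le_of_le_ofReal C0_nonneg (pot_lint hμ hy)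
    · filter_upwards [ae_mem hμ] with x hx
      show 0 ≤ -Real.log |x - y|
      have : Real.log |x - y| ≤ 0 := by
        apply Real.log_nonpos (abs_nonneg _)
        rw [abs_le]; constructor <;> linarith [hx.1, hx.2, hy.1, hy.2]
      linarith
    · exact (pot_integrable hμ hy).neg.aestronglyMeasurable
  rw [integral_neg] at h1
  linarith

end Pot

/-! ### Compositions of the two branches -/

lemma mA_maps {x : ℝ} (hx : x ∈ Icc (0:ℝ) 1) : mA x ∈ Icc (0:ℝ) 1 := by
  have : 0 < 1 + x := by linarith [hx.1]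
  exact ⟨div_nonneg hx.1 this.le, by unfold mA; rw [div_le_one this]; linarith⟩

lemma mB_maps {x : ℝ} (hx : x ∈ Icc (0:ℝ) 1) : mB x ∈ Icc (0:ℝ) 1 := by
  have : 0 < 1 + x := by linarith [hx.1]
  exact ⟨div_nonneg zero_le_one this.le, by unfold mB; rw [div_le_one this]; linarith [hx.1]⟩

lemma mA_cont : ContinuousOn mA (Icc 0 1) := by
  unfold mA
  apply ContinuousOn.div (by fun_prop) (by fun_prop)
  intro x hx; linarith [hx.1]

lemma mB_cont : ContinuousOn mB (Icc 0 1) := by
  unfold mB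
  apply ContinuousOn.div (by fun_prop) (by fun_prop)
  intro x hx; linarith [hx.1]

lemma mA_mono : MonotoneOn mA (Icc 0 1) := by
  intro x hx y hy hxy
  unfold mA
  rw [div_le_div_iff₀ (by linarith [hx.1]) (by linarith [hy.1])]
  nlinarith

lemma mB_anti : AntitoneOn mB (Icc 0 1) := by
  intro x hx y hy hxy
  unfold mB
  exact one_div_le_one_div_of_le (by linarith [hx.1]) (by linarith)

lemma mA_diff {x y : ℝ} (hx : x ∈ Icc (0:ℝ) 1) (hy : y ∈ Icc (0:ℝ) 1) :
    |mA x - mA y| = |x - y| / ((1 + x) * (1 + y)) := by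
  have h1 : 0 < 1 + x := by linarith [hx.1]
  have h2 : 0 < 1 + y := by linarith [hy.1]
  have : mA x - mA y = (x - y) / ((1 + x) * (1 + y)) := by
    unfold mA; field_simp; ring
  rw [this, abs_div, abs_of_pos (mul_pos h1 h2)]

lemma mB_diff {x y : ℝ} (hx : x ∈ Icc (0:ℝ) 1) (hy : y ∈ Icc (0:ℝ) 1) :
    |mB x - mB y| = |x - y| / ((1 + x) * (1 + y)) := by
  have h1 : 0 < 1 + x := by linarith [hx.1]
  have h2 : 0 < 1 + y := by linarith [hy.1]
  have : mB x - mB y = (y - x) / ((1 + x) * (1 + y)) := by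
    unfold mB; field_simp; ring
  rw [this, abs_div, abs_of_pos (mul_pos h1 h2), abs_sub_comm]

/-- data carried by a composition `w` of the branches -/
structure Word (μ : Measure ℝ) (w : ℝ → ℝ) (c d : ℝ) (k : ℕ) : Prop where
  meas : Measurable w
  cont : ContinuousOn w (Icc 0 1)
  maps : ∀ x ∈ Icc (0:ℝ) 1, w x ∈ Icc (0:ℝ) 1
  diff : ∀ x ∈ Icc (0:ℝ) 1, ∀ y ∈ Icc (0:ℝ) 1,
    |w x - w y| = |x - y| / ((c * x + d) * (c * y + d))
  c0 : 0 ≤ c
  d1 : 1 ≤ d
  push : μ.map w ≤ (2:ENNReal) ^ k • μ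
  mono : MonotoneOn w (Icc 0 1) ∨ AntitoneOn w (Icc 0 1)

section W

variable {μ : Measure ℝ} [IsProbabilityMeasure μ]

lemma word_id : Word μ id 0 1 0 where
  meas := measurable_id
  cont := continuousOn_id
  maps := fun x hx => hx
  diff := fun x _ y _ => by simp
  c0 := le_rfl
  d1 := le_rfl
  push := by simp
  mono := Or.inl monotoneOn_id

lemma Word.extA (hμ : HasCDF μ) {w : ℝ → ℝ} {c d : ℝ} {k : ℕ} (W : Word μ w c d k) :
    Word μ (w ∘ mA) (c + d) d (k + 1) where
  meas := W.meas.comp mA_meas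
  cont := W.cont.comp mA_cont (fun x hx => mA_maps hx)
  maps := fun x hx => W.maps _ (mA_maps hx)
  diff := fun x hx y hy => by
    have h1 : 0 < 1 + x := by linarith [hx.1]
    have h2 : 0 < 1 + y := by linarith [hy.1]
    have hc := W.c0
    have hd := W.d1
    have hx0 := hx.1
    have hy0 := hy.1
    rw [Function.comp_apply, Function.comp_apply, W.diff _ (mA_maps hx) _ (mA_maps hy),
      mA_diff hx hy, div_div]
    congr 1
    unfold mA
    field_simp
    ring
  c0 := by have := W.c0; have := W.d1; linarith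
  d1 := W.d1
  push := by
    rw [← Measure.map_map W.meas mA_meas]
    calc (μ.map mA).map w ≤ ((2:ENNReal) • μ).map w := Measure.map_mono (map_A_le hμ) W.meas
      _ = (2:ENNReal) • μ.map w := by rw [Measure.map_smul]
      _ ≤ (2:ENNReal) • ((2:ENNReal) ^ k • μ) := by
          intro s
          simp only [Measure.smul_apply, smul_eq_mul]
          have := W.push s
          simp only [Measure.smul_apply, smul_eq_mul] at this
          gcongr
      _ = (2:ENNReal) ^ (k + 1) • μ := by rw [smul_smul, pow_succ, mul_comm]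
  mono := by
    rcases W.mono with h | h
    · exact Or.inl (h.comp mA_mono (fun x hx => mA_maps hx))
    · exact Or.inr (h.comp_MonotoneOn mA_mono (fun x hx => mA_maps hx))

lemma Word.extB (hμ : HasCDF μ) {w : ℝ → ℝ} {c d : ℝ} {k : ℕ} (W : Word μ w c d k) :
    Word μ (w ∘ mB) d (c + d) (k + 1) where
  meas := W.meas.comp mB_meas
  cont := W.cont.comp mB_cont (fun x hx => mB_maps hx)
  maps := fun x hx => W.maps _ (mB_maps hx)
  diff := fun x hx y hy => by
    have h1 : 0 < 1 + x := by linarith [hx.1]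
    have h2 : 0 < 1 + y := by linarith [hy.1]
    have hc := W.c0
    have hd := W.d1
    have hx0 := hx.1
    have hy0 := hy.1
    rw [Function.comp_apply, Function.comp_apply, W.diff _ (mB_maps hx) _ (mB_maps hy),
      mB_diff hx hy, div_div]
    congr 1
    unfold mB
    field_simp
    ring
  c0 := by have := W.d1; linarith
  d1 := by have := W.c0; have := W.d1; linarith
  push := by
    rw [← Measure.map_map W.meas mB_meas]
    calc (μ.map mB).map w ≤ ((2:ENNReal) • μ).map w := Measure.map_mono (map_B_le hμ) W.meas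
      _ = (2:ENNReal) • μ.map w := by rw [Measure.map_smul]
      _ ≤ (2:ENNReal) • ((2:ENNReal) ^ k • μ) := by
          intro s
          simp only [Measure.smul_apply, smul_eq_mul]
          have := W.push s
          simp only [Measure.smul_apply, smul_eq_mul] at this
          gcongr
      _ = (2:ENNReal) ^ (k + 1) • μ := by rw [smul_smul, pow_succ, mul_comm]
  mono := by
    rcases W.mono with h | h
    · exact Or.inr (h.comp_AntitoneOn mB_anti (fun x hx => mB_maps hx))
    · exact Or.inl (h.comp mB_anti (fun x hx => mB_maps hx))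

lemma exists_word (hμ : HasCDF μ) {t η : ℝ} (ht : t ∈ Icc (0:ℝ) 1) (hη : 0 < η) (hη1 : η ≤ 1) :
    ∃ (w : ℝ → ℝ) (c d : ℝ) (k : ℕ) (s : ℝ), Word μ w c d k ∧ s ∈ Icc (0:ℝ) 1 ∧ w s = t ∧
      1 / (d * (c + d)) < η ∧ c + d ≤ 2 / η := by
  have key : ∀ n : ℕ, ∃ (w : ℝ → ℝ) (c d : ℝ) (k : ℕ) (s : ℝ), Word μ w c d k ∧ s ∈ Icc (0:ℝ) 1 ∧
      w s = t ∧ ((1 / (d * (c + d)) < η ∧ c + d ≤ 2 / η) ∨
        ((n:ℝ) + 1 ≤ d * (c + d) ∧ d * (c + d) ≤ 1 / η)) := by
    intro n
    induction n with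
    | zero =>
      refine ⟨id, 0, 1, 0, t, word_id, ht, rfl, Or.inr ⟨by norm_num, ?_⟩⟩
      rw [le_div_iff₀ hη]; linarith
    | succ n ih =>
      obtain ⟨w, c, d, k, s, W, hs, hws, h⟩ := ih
      rcases h with h | ⟨h1, h2⟩
      · exact ⟨w, c, d, k, s, W, hs, hws, Or.inl h⟩
      have hc := W.c0
      have hd := W.d1
      have hcd : c + 2 * d ≤ 2 / η := by
        have e : 2 / η = 2 * (1 / η) := by ring
        rw [e]; nlinarith
      by_cases hs2 : s ≤ 1 / 2
      · have h1s : 0 < 1 - s := by linarith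
        have hs' : s / (1 - s) ∈ Icc (0:ℝ) 1 :=
          ⟨div_nonneg hs.1 h1s.le, by rw [div_le_one h1s]; linarith⟩
        refine ⟨w ∘ mA, c + d, d, k + 1, s / (1 - s), W.extA hμ, hs', ?_, ?_⟩
        · rw [Function.comp_apply, ← hws]; congr 1; unfold mA; field_simp; try ring
        · have hP : 0 < d * (c + d + d) := by positivity
          by_cases h3 : d * (c + d + d) ≤ 1 / η
          · right
            refine ⟨?_, h3⟩
            push_cast; nlinarith
          · left
            push Not at h3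
            refine ⟨?_, by linarith⟩
            rw [div_lt_iff₀ hη] at h3
            rw [div_lt_iff₀ hP]; linarith
      · push Not at hs2
        have hs0 : 0 < s := by linarith
        have hs' : 1 / s - 1 ∈ Icc (0:ℝ) 1 := by
          constructor
          · have : 1 ≤ 1 / s := by rw [le_div_iff₀ hs0]; linarith [hs.2]
            linarith
          · have : 1 / s ≤ 2 := by rw [div_le_iff₀ hs0]; linarith
            linarith
        refine ⟨w ∘ mB, d, c + d, k + 1, 1 / s - 1, W.extB hμ, hs', ?_, ?_⟩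
        · rw [Function.comp_apply, ← hws]; congr 1; unfold mB; field_simp; try ring
        · have hP : 0 < (c + d) * (d + (c + d)) := by positivity
          by_cases h3 : (c + d) * (d + (c + d)) ≤ 1 / η
          · right
            refine ⟨?_, h3⟩
            push_cast; nlinarith
          · left
            push Not at h3
            refine ⟨?_, by linarith⟩
            rw [div_lt_iff₀ hη] at h3
            rw [div_lt_iff₀ hP]; linarith
  obtain ⟨n, hn⟩ := exists_nat_gt (1 / η)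
  obtain ⟨w, c, d, k, s, W, hs, hws, h⟩ := key n
  rcases h with h | ⟨h1, h2⟩
  · exact ⟨w, c, d, k, s, W, hs, hws, h⟩
  · linarith

lemma Word.close {w : ℝ → ℝ} {c d : ℝ} {k : ℕ} (W : Word μ w c d k) {x y : ℝ}
    (hx : x ∈ Icc (0:ℝ) 1) (hy : y ∈ Icc (0:ℝ) 1) : |w x - w y| ≤ 1 / (d * (c + d)) := by
  have hc := W.c0
  have hd := W.d1
  have hx0 := hx.1
  have hy0 := hy.1
  rw [W.diff x hx y hy, div_le_div_iff₀ (by positivity) (by positivity)]
  have h1 : |x - y| ≤ x + y := by rw [abs_le]; constructor <;> linarith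
  have h2 : |x - y| ≤ 1 := by rw [abs_le]; constructor <;> linarith [hx.2, hy.2]
  have h3 : |x - y| * (c * d) ≤ (x + y) * (c * d) := by gcongr
  have h4 : |x - y| * (d * d) ≤ 1 * (d * d) := by gcongr
  have h5 : 0 ≤ c * x * (c * y) := by positivity
  nlinarith

lemma Word.nearest {w : ℝ → ℝ} {c d : ℝ} {k : ℕ} (W : Word μ w c d k) (z : ℝ) :
    ∃ y ∈ Icc (0:ℝ) 1, ∀ x ∈ Icc (0:ℝ) 1, |w x - w y| ≤ |w x - z| := by
  have m0 : (0:ℝ) ∈ Icc (0:ℝ) 1 := ⟨le_rfl, zero_le_one⟩
  have m1 : (1:ℝ) ∈ Icc (0:ℝ) 1 := ⟨zero_le_one, le_rfl⟩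
  rcases W.mono with hm | hm
  · rcases le_total z (w 0) with h | h
    · refine ⟨0, m0, fun x hx => ?_⟩
      have := hm m0 hx hx.1
      rw [abs_of_nonneg (by linarith), abs_of_nonneg (by linarith)]; linarith
    rcases le_total (w 1) z with h' | h'
    · refine ⟨1, m1, fun x hx => ?_⟩
      have := hm hx m1 hx.2
      rw [abs_of_nonpos (by linarith), abs_of_nonpos (by linarith)]; linarith
    · obtain ⟨y, hy, hyz⟩ := intermediate_value_Icc zero_le_one W.cont ⟨h, h'⟩
      exact ⟨y, hy, fun x _ => by rw [hyz]⟩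
  · rcases le_total z (w 1) with h | h
    · refine ⟨1, m1, fun x hx => ?_⟩
      have := hm hx m1 hx.2
      rw [abs_of_nonneg (by linarith), abs_of_nonneg (by linarith)]; linarith
    rcases le_total (w 0) z with h' | h'
    · refine ⟨0, m0, fun x hx => ?_⟩
      have := hm m0 hx hx.1
      rw [abs_of_nonpos (by linarith), abs_of_nonpos (by linarith)]; linarith
    · obtain ⟨y, hy, hyz⟩ := intermediate_value_Icc' zero_le_one W.cont ⟨h, h'⟩
      exact ⟨y, hy, fun x _ => by rw [hyz]⟩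

lemma Word.log_ge (hμ : HasCDF μ) {w : ℝ → ℝ} {c d : ℝ} {k : ℕ} (W : Word μ w c d k) (z : ℝ) :
    ∃ y ∈ Icc (0:ℝ) 1, ∀ᵐ x ∂μ,
      Real.log |x - y| - 2 * Real.log (c + d) ≤ Real.log |w x - z| := by
  obtain ⟨y, hy, h⟩ := W.nearest z
  refine ⟨y, hy, ?_⟩
  filter_upwards [ae_mem hμ, ae_ne hμ y] with x hx hne
  have hc := W.c0
  have hd := W.d1
  have hx0 := hx.1
  have hy0 := hy.1
  have h1 : 0 < |x - y| := abs_pos.mpr (sub_ne_zero.mpr hne)
  have hA : 0 < c * x + d := by positivity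
  have hB : 0 < c * y + d := by positivity
  have h2 : 0 < |w x - w y| := by rw [W.diff x hx y hy]; positivity
  have h3 : Real.log |w x - w y| ≤ Real.log |w x - z| := Real.log_le_log h2 (h x hx)
  have h4 : Real.log |w x - w y| = Real.log |x - y| - (Real.log (c * x + d) + Real.log (c * y + d)) := by
    rw [W.diff x hx y hy, Real.log_div h1.ne' (by positivity), Real.log_mul hA.ne' hB.ne']
  have h5 : Real.log (c * x + d) ≤ Real.log (c + d) :=
    Real.log_le_log hA (by nlinarith [hx.2])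
  have h6 : Real.log (c * y + d) ≤ Real.log (c + d) :=
    Real.log_le_log hB (by nlinarith [hy.2])
  linarith

lemma Word.log_nonpos {w : ℝ → ℝ} {c d : ℝ} {k : ℕ} (W : Word μ w c d k) {z : ℝ}
    (hz : z ∈ Icc (0:ℝ) 1) {x : ℝ} (hx : x ∈ Icc (0:ℝ) 1) : Real.log |w x - z| ≤ 0 := by
  apply Real.log_nonpos (abs_nonneg _)
  have := W.maps x hx
  rw [abs_le]; constructor <;> linarith [this.1, this.2, hz.1, hz.2]

lemma Word.integrable (hμ : HasCDF μ) {w : ℝ → ℝ} {c d : ℝ} {k : ℕ} (W : Word μ w c d k) {z : ℝ}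
    (hz : z ∈ Icc (0:ℝ) 1) : Integrable (fun x => Real.log |w x - z|) μ := by
  obtain ⟨y, hy, h⟩ := W.log_ge hμ z
  have hi : Integrable (fun x => -(Real.log |x - y| - 2 * Real.log (c + d))) μ :=
    ((pot_integrable hμ hy).sub (integrable_const _)).neg
  refine hi.mono' ?_ ?_
  · have hw := W.meas
    exact (Real.measurable_log.comp (by fun_prop)).aestronglyMeasurable
  · filter_upwards [h, ae_mem hμ] with x h1 hx
    rw [Real.norm_eq_abs, abs_of_nonpos (W.log_nonpos hz hx)]
    linarith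

lemma Word.int_ge (hμ : HasCDF μ) {w : ℝ → ℝ} {c d : ℝ} {k : ℕ} (W : Word μ w c d k) {z : ℝ}
    (hz : z ∈ Icc (0:ℝ) 1) : -(C0 + 2 * Real.log (c + d)) ≤ ∫ x, Real.log |w x - z| ∂μ := by
  obtain ⟨y, hy, h⟩ := W.log_ge hμ z
  have h1 : ∫ x, (Real.log |x - y| - 2 * Real.log (c + d)) ∂μ ≤ ∫ x, Real.log |w x - z| ∂μ :=
    integral_mono_ae ((pot_integrable hμ hy).sub (integrable_const _)) (W.integrable hμ hz) h
  rw [integral_sub (pot_integrable hμ hy) (integrable_const _), integral_const] at h1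
  simp only [probReal_univ, one_smul] at h1
  have h2 := pot_bound hμ hy
  linarith

lemma Word.set_int_ge (hμ : HasCDF μ) {w : ℝ → ℝ} {c d : ℝ} {k : ℕ} (W : Word μ w c d k) {z : ℝ}
    (hz : z ∈ Icc (0:ℝ) 1) {E : Set ℝ} (hE : MeasurableSet E) (hE2 : 1 / 2 ≤ μ.real E) :
    -(2 * (C0 + 2 * Real.log (c + d))) ≤ (μ.real E)⁻¹ * ∫ x in E, Real.log |w x - z| ∂μ := by
  have h1 := W.int_ge hμ hz
  have h2 := integral_add_compl hE (W.integrable hμ hz)
  have h3 : ∫ x in Eᶜ, Real.log |w x - z| ∂μ ≤ 0 := by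
    apply integral_nonpos_of_ae
    apply ae_restrict_of_ae
    filter_upwards [ae_mem hμ] with x hx
    exact W.log_nonpos hz hx
  have h4 : -(C0 + 2 * Real.log (c + d)) ≤ ∫ x in E, Real.log |w x - z| ∂μ := by linarith
  have hc := W.c0
  have hd := W.d1
  have h5 : 0 ≤ C0 + 2 * Real.log (c + d) := by
    have := C0_nonneg
    have : 0 ≤ Real.log (c + d) := Real.log_nonneg (by linarith)
    linarith
  have hE0 : 0 < μ.real E := by linarith
  have h6 : (μ.real E)⁻¹ ≤ 2 := by
    rw [inv_le_comm₀ hE0 (by norm_num)]; linarith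
  have h7 : 0 < (μ.real E)⁻¹ := by positivity
  nlinarith

end W

/-! ### Chebyshev nodes on `[0,1]` -/

/-- angle of the `j`-th Chebyshev node -/
def ang (N j : ℕ) : ℝ := (2 * j + 1) * Real.pi / (2 * N)

/-- `j`-th Chebyshev node on `[0,1]` -/
def node (N j : ℕ) : ℝ := (1 + Real.cos (ang N j)) / 2

lemma T_eval_prod (N : ℕ) (hN : N ≠ 0) (t : ℝ) :
    (Chebyshev.T ℝ N).eval t = 2 ^ (N - 1) * ∏ j ∈ Finset.range N, (t - Real.cos (ang N j)) := by
  have hinj : Set.InjOn (fun k : ℕ => Real.cos ((2 * k + 1) * Real.pi / (2 * N))) (Finset.range N) :=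
    (Finset.range N).nodup_map_iff_injOn.mp (Chebyshev.roots_T_real_nodup N)
  have hcard : Multiset.card (Chebyshev.T ℝ N).roots = (Chebyshev.T ℝ N).natDegree := by
    rw [Chebyshev.roots_T_real, Chebyshev.natDegree_T]
    simp only [Finset.card_val, Int.natAbs_natCast]
    rw [Finset.card_image_of_injOn hinj, Finset.card_range]
  have h := C_leadingCoeff_mul_prod_multiset_X_sub_C hcard
  conv_lhs => rw [← h]
  rw [Chebyshev.roots_T_real, Chebyshev.leadingCoeff_T, eval_mul, eval_C]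
  simp only [Int.natAbs_natCast]
  congr 1
  have h2 : (Multiset.map (fun a => X - C a)
      (Finset.image (fun k : ℕ => Real.cos ((2 * k + 1) * Real.pi / (2 * N))) (Finset.range N)).val).prod
      = ∏ a ∈ Finset.image (fun k : ℕ => Real.cos ((2 * k + 1) * Real.pi / (2 * N))) (Finset.range N),
        (X - C a) := rfl
  rw [h2, Finset.prod_image hinj, eval_prod]
  simp [ang]

lemma prod_node (N : ℕ) (hN : N ≠ 0) (θ : ℝ) :
    ∏ j ∈ Finset.range N, ((1 + Real.cos θ) / 2 - node N j) = 2 / 4 ^ N * Real.cos (N * θ) := by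
  have h1 := T_eval_prod N hN (Real.cos θ)
  rw [Chebyshev.T_real_cos] at h1
  have h2 : ∏ j ∈ Finset.range N, ((1 + Real.cos θ) / 2 - node N j) =
      (1/2) ^ N * ∏ j ∈ Finset.range N, (Real.cos θ - Real.cos (ang N j)) := by
    rw [← Finset.card_range N, ← Finset.prod_const, Finset.card_range, ← Finset.prod_mul_distrib]
    apply Finset.prod_congr rfl
    intro j _
    unfold node; ring
  rw [h2]
  have h3 : Real.cos (((N:ℤ):ℝ) * θ) = Real.cos (N * θ) := by norm_cast
  rw [h3] at h1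
  rw [h1]
  obtain ⟨M, rfl⟩ := Nat.exists_eq_succ_of_ne_zero hN
  have e : (4:ℝ) ^ (M+1) = 2 ^ (M+1) * 2 ^ (M + 1) := by rw [← mul_pow]; norm_num
  rw [e]
  simp only [Nat.succ_eq_add_one, Nat.add_sub_cancel]
  rw [one_div_pow, pow_succ]
  field_simp

lemma node_mem (N j : ℕ) : node N j ∈ Icc (0:ℝ) 1 := by
  unfold node
  constructor <;> linarith [Real.neg_one_le_cos (ang N j), Real.cos_le_one (ang N j)]

lemma abs_cos_sub (a b : ℝ) : |Real.cos a - Real.cos b| = 2 * (|Real.sin ((a + b) / 2)| * |Real.sin ((a - b) / 2)|) := by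
  rw [Real.cos_sub_cos, abs_mul, abs_mul]
  simp; ring

lemma abs_sin_ge {φ : ℝ} (h : |φ| ≤ Real.pi / 2) : 2 / Real.pi * |φ| ≤ |Real.sin φ| := by
  have h1 := Real.mul_le_sin (abs_nonneg φ) h
  have h2 : |Real.sin φ| = |Real.sin (|φ|)| := by
    rcases abs_cases φ with ⟨h, _⟩ | ⟨h, _⟩ <;> rw [h]
    rw [Real.sin_neg, abs_neg]
  rw [h2]
  exact h1.trans (le_abs_self _)

lemma core_prod {N j0 : ℕ} (hN : 0 < N) (hj : j0 < N) {θ : ℝ} (h : |θ - ang N j0| ≤ Real.pi / (2 * N))
    (hne : θ ≠ ang N j0) :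
    1 / 4 ^ N ≤ ∏ j ∈ (Finset.range N).erase j0, |(1 + Real.cos θ) / 2 - node N j| := by
  have hN' : (0:ℝ) < N := by exact_mod_cast hN
  have hN1 : (1:ℝ) ≤ N := by exact_mod_cast hN
  have hpi := Real.pi_pos
  have hall := prod_node N hN.ne' θ
  have habs : ∏ j ∈ Finset.range N, |(1 + Real.cos θ) / 2 - node N j| = 2 / 4 ^ N * |Real.cos (N * θ)| := by
    rw [← Finset.abs_prod, hall, abs_mul, abs_of_pos (by positivity)]
  rw [← Finset.mul_prod_erase _ _ (Finset.mem_range.mpr hj)] at habs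
  set P := ∏ j ∈ (Finset.range N).erase j0, |(1 + Real.cos θ) / 2 - node N j| with hP
  have hP0 : 0 ≤ P := Finset.prod_nonneg (fun _ _ => abs_nonneg _)
  set φ := (N:ℝ) * (θ - ang N j0) with hφ
  have hφabs : |φ| = N * |θ - ang N j0| := by rw [hφ, abs_mul, abs_of_pos hN']
  have hcos : |Real.cos (N * θ)| = |Real.sin φ| := by
    have e : (N:ℝ) * θ = (φ + Real.pi / 2) + (j0:ℝ) * Real.pi := by
      rw [hφ]; unfold ang; field_simp; ring
    rw [e, Real.cos_add_nat_mul_pi, abs_mul, abs_pow, abs_neg, abs_one, one_pow, one_mul,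
      Real.cos_add_pi_div_two, abs_neg]
  have hsin : 2 / Real.pi * |φ| ≤ |Real.sin φ| := by
    apply abs_sin_ge
    rw [hφabs]
    calc (N:ℝ) * |θ - ang N j0| ≤ N * (Real.pi / (2 * N)) := by gcongr
      _ = Real.pi / 2 := by field_simp
  have hz : |(1 + Real.cos θ) / 2 - node N j0| ≤ |θ - ang N j0| / 2 := by
    have e : (1 + Real.cos θ) / 2 - node N j0 = (Real.cos θ - Real.cos (ang N j0)) / 2 := by
      unfold node; ring
    rw [e, abs_div, abs_two, abs_cos_sub]
    have h1 : |Real.sin ((θ + ang N j0) / 2)| ≤ 1 := Real.abs_sin_le_one _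
    have h2 : |Real.sin ((θ - ang N j0) / 2)| ≤ |(θ - ang N j0) / 2| := Real.abs_sin_le_abs
    have h3 : |(θ - ang N j0) / 2| = |θ - ang N j0| / 2 := by rw [abs_div, abs_two]
    have h4 := abs_nonneg (Real.sin ((θ + ang N j0) / 2))
    have h5 := abs_nonneg (Real.sin ((θ - ang N j0) / 2))
    nlinarith
  have hd : 0 < |θ - ang N j0| := abs_pos.mpr (sub_ne_zero.mpr hne)
  -- combine
  have h1 : 2 / 4 ^ N * (2 / Real.pi * (N * |θ - ang N j0|)) ≤ |θ - ang N j0| / 2 * P := by
    calc 2 / 4 ^ N * (2 / Real.pi * (N * |θ - ang N j0|)) ≤ 2 / 4 ^ N * |Real.cos (N * θ)| := by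
          rw [hcos, ← hφabs]; gcongr
      _ = |(1 + Real.cos θ) / 2 - node N j0| * P := habs.symm
      _ ≤ _ := by gcongr
  have h2 : 8 * N / Real.pi / 4 ^ N ≤ P := by
    have e : 2 / 4 ^ N * (2 / Real.pi * (N * |θ - ang N j0|)) =
        |θ - ang N j0| / 2 * (8 * N / Real.pi / 4 ^ N) := by ring
    rw [e] at h1
    exact le_of_mul_le_mul_left h1 (by positivity)
  refine le_trans ?_ h2
  gcongr
  rw [le_div_iff₀ hpi]
  linarith [Real.pi_le_four]

lemma core_prod' {N j0 : ℕ} (hN : 0 < N) (hj : j0 < N) {θ : ℝ} (h : |θ - ang N j0| ≤ Real.pi / (2 * N)) :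
    1 / 4 ^ N ≤ ∏ j ∈ (Finset.range N).erase j0, |(1 + Real.cos θ) / 2 - node N j| := by
  by_cases hne : θ = ang N j0
  · have hN' : (0:ℝ) < N := by exact_mod_cast hN
    have hpi := Real.pi_pos
    have hcont : Continuous (fun t : ℝ => ∏ j ∈ (Finset.range N).erase j0,
        |(1 + Real.cos t) / 2 - node N j|) := by fun_prop
    have h1 : Tendsto (fun t : ℝ => ∏ j ∈ (Finset.range N).erase j0,
        |(1 + Real.cos t) / 2 - node N j|) (𝓝[>] θ) (𝓝 (∏ j ∈ (Finset.range N).erase j0,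
        |(1 + Real.cos θ) / 2 - node N j|)) := (hcont.tendsto θ).mono_left nhdsWithin_le_nhds
    refine ge_of_tendsto h1 ?_
    have h2 : Ioo θ (θ + Real.pi / (2 * N)) ∈ 𝓝[>] θ :=
      Ioo_mem_nhdsGT (by linarith [show 0 < Real.pi / (2 * N) by positivity])
    filter_upwards [h2] with t ht
    apply core_prod hN hj
    · rw [← hne, abs_of_pos (by linarith [ht.1])]; linarith [ht.2]
    · rw [← hne]; exact ht.1.ne'
  · exact core_prod hN hj h hne

lemma nodes_good {N : ℕ} (hN : 0 < N) {z : ℝ} (hz : z ∈ Icc (0:ℝ) 1) :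
    ∃ j0 < N, 1 / 4 ^ N ≤ ∏ j ∈ (Finset.range N).erase j0, |z - node N j| ∧
      ∀ j < N, j ≠ j0 → 1 / (4 * (N:ℝ) ^ 2) ≤ |z - node N j| := by
  have hN' : (0:ℝ) < N := by exact_mod_cast hN
  have hpi := Real.pi_pos
  set θ := Real.arccos (2 * z - 1) with hθ
  have hcosθ : Real.cos θ = 2 * z - 1 :=
    Real.cos_arccos (by linarith [hz.1]) (by linarith [hz.2])
  have hzθ : z = (1 + Real.cos θ) / 2 := by rw [hcosθ]; ring
  have hθ0 : 0 ≤ θ := Real.arccos_nonneg _
  have hθ1 : θ ≤ Real.pi := Real.arccos_le_pi _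
  obtain ⟨j0, hj0, h1, h2⟩ : ∃ j0 < N, (j0:ℝ) ≤ θ * N / Real.pi ∧ θ * N / Real.pi ≤ j0 + 1 := by
    by_cases h : ⌊θ * N / Real.pi⌋₊ < N
    · exact ⟨_, h, Nat.floor_le (by positivity), (Nat.lt_floor_add_one _).le⟩
    · push Not at h
      have h3 : (N:ℝ) ≤ θ * N / Real.pi := (Nat.cast_le.mpr h).trans (Nat.floor_le (by positivity))
      have h4 : θ * N / Real.pi ≤ N := by rw [div_le_iff₀ hpi]; nlinarith
      refine ⟨N - 1, by omega, ?_, ?_⟩ <;> rw [Nat.cast_sub (by omega)] <;> push_cast <;> linarith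
  rw [le_div_iff₀ hpi] at h1
  rw [div_le_iff₀ hpi] at h2
  have hclose : |θ - ang N j0| ≤ Real.pi / (2 * N) := by
    have e : θ - ang N j0 = (2 * (θ * N) - (2 * j0 + 1) * Real.pi) / (2 * N) := by
      unfold ang; field_simp
    rw [e, abs_div, abs_of_pos (show (0:ℝ) < 2 * N by positivity)]
    gcongr
    rw [abs_le]; constructor <;> nlinarith
  refine ⟨j0, hj0, ?_, ?_⟩
  · rw [hzθ]; exact core_prod' hN hj0 hclose
  · intro j hj hne
    have e : z - node N j = (Real.cos θ - Real.cos (ang N j)) / 2 := by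
      rw [hzθ]; unfold node; ring
    rw [e, abs_div, abs_two, abs_cos_sub]
    have hjN : (j:ℝ) + 1 ≤ N := by exact_mod_cast hj
    have hj0' : (0:ℝ) ≤ j := Nat.cast_nonneg j
    have hang0 : Real.pi / (2 * N) ≤ ang N j := by
      unfold ang; gcongr; nlinarith
    have hang1 : ang N j ≤ Real.pi - Real.pi / (2 * N) := by
      have e2 : Real.pi - Real.pi / (2 * N) = (2 * N - 1) * Real.pi / (2 * N) := by field_simp
      rw [e2]; unfold ang; gcongr; linarith
    have hpN : Real.pi / (2 * N) = 2 * (Real.pi / (4 * N)) := by field_simp; ring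
    have hpN0 : 0 < Real.pi / (4 * N) := by positivity
    have hval : 2 / Real.pi * (Real.pi / (4 * N)) = 1 / (2 * N) := by field_simp; ring
    have hs1 : 1 / (2 * (N:ℝ)) ≤ |Real.sin ((θ + ang N j) / 2)| := by
      rcases le_total ((θ + ang N j) / 2) (Real.pi / 2) with h | h
      · have h5 := Real.mul_le_sin (x := (θ + ang N j) / 2) (by linarith) h
        refine le_trans ?_ (le_trans h5 (le_abs_self _))
        rw [← hval]; exact mul_le_mul_of_nonneg_left (by linarith) (by positivity)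
      · have h5 := Real.mul_le_sin (x := Real.pi - (θ + ang N j) / 2) (by linarith) (by linarith)
        rw [Real.sin_pi_sub] at h5
        refine le_trans ?_ (le_trans h5 (le_abs_self _))
        rw [← hval]; exact mul_le_mul_of_nonneg_left (by linarith) (by positivity)
    have hsep : Real.pi / N ≤ |ang N j - ang N j0| := by
      have e2 : ang N j - ang N j0 = ((j:ℝ) - j0) * (Real.pi / N) := by
        unfold ang; field_simp; ring
      rw [e2, abs_mul, abs_of_pos (show 0 < Real.pi / N by positivity)]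
      have : (1:ℝ) ≤ |(j:ℝ) - j0| := by
        have h6 : (1:ℤ) ≤ |(j:ℤ) - j0| := Int.one_le_abs (by omega)
        exact_mod_cast h6
      nlinarith [show 0 < Real.pi / N by positivity]
    have hsep2 : Real.pi / (2 * N) ≤ |θ - ang N j| := by
      have h6 : |ang N j - ang N j0| ≤ |θ - ang N j| + |θ - ang N j0| := by
        have : ang N j - ang N j0 = (θ - ang N j0) - (θ - ang N j) := by ring
        rw [this]
        refine (abs_sub _ _).trans (by linarith)
      have h7 : Real.pi / N = 2 * (Real.pi / (2 * N)) := by field_simp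
      linarith
    have hs2 : 1 / (2 * (N:ℝ)) ≤ |Real.sin ((θ - ang N j) / 2)| := by
      have h8 : |(θ - ang N j) / 2| ≤ Real.pi / 2 := by
        rw [abs_div, abs_two]
        have : |θ - ang N j| ≤ Real.pi := by rw [abs_le]; constructor <;> linarith
        linarith
      refine le_trans ?_ (abs_sin_ge h8)
      rw [← hval, abs_div, abs_two]
      exact mul_le_mul_of_nonneg_left (by linarith) (by positivity)
    have h9 : 1 / (4 * (N:ℝ) ^ 2) = 1 / (2 * N) * (1 / (2 * N)) := by field_simp; ring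
    rw [h9]
    calc 1 / (2 * (N:ℝ)) * (1 / (2 * N)) ≤
        |Real.sin ((θ + ang N j) / 2)| * |Real.sin ((θ - ang N j) / 2)| := by gcongr
      _ = _ := by ring

/-! ### The averaged lower bound -/

section Avg

variable {μ : Measure ℝ} [IsProbabilityMeasure μ]

lemma Word.ae_ne (hμ : HasCDF μ) {w : ℝ → ℝ} {c d : ℝ} {k : ℕ} (W : Word μ w c d k) (z : ℝ) :
    ∀ᵐ x ∂μ, w x ≠ z := by
  obtain ⟨y, hy, h⟩ := W.nearest z
  filter_upwards [ae_mem hμ, CarrierCapacity.ae_ne hμ y] with x hx hne heq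
  have h1 : 0 < |x - y| := abs_pos.mpr (sub_ne_zero.mpr hne)
  have hc := W.c0
  have hd := W.d1
  have hx0 := hx.1
  have hy0 := hy.1
  have h2 : 0 < |w x - w y| := by rw [W.diff x hx y hy]; positivity
  have h3 := h x hx
  rw [heq, sub_self, abs_zero] at h3
  rw [heq] at h2
  linarith

lemma Word.const_le (hμ : HasCDF μ) {w : ℝ → ℝ} {c d : ℝ} {k : ℕ} (W : Word μ w c d k) {z : ℝ}
    (hz : z ∈ Icc (0:ℝ) 1) {E : Set ℝ} (hE2 : 1 / 2 ≤ μ.real E) {C : ℝ}
    (h : ∀ x ∈ Icc (0:ℝ) 1, C ≤ Real.log |w x - z|) :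
    C ≤ (μ.real E)⁻¹ * ∫ x in E, Real.log |w x - z| ∂μ := by
  have hE0 : 0 < μ.real E := by linarith
  have h1 : ∫ _x in E, C ∂μ ≤ ∫ x in E, Real.log |w x - z| ∂μ := by
    apply integral_mono_ae (integrable_const _) (W.integrable hμ hz).restrict
    apply ae_restrict_of_ae
    filter_upwards [ae_mem hμ] with x hx
    exact h x hx
  rw [setIntegral_const, smul_eq_mul] at h1
  rw [inv_mul_eq_div, le_div_iff₀ hE0]
  linarith

lemma avg_ge (hμ : HasCDF μ) {N : ℕ} (hN : 0 < N) {η : ℝ} (hη : η = 1 / (8 * (N:ℝ) ^ 3))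
    {w : ℕ → ℝ → ℝ} {c d : ℕ → ℝ} {k : ℕ → ℕ} {s : ℕ → ℝ}
    (W : ∀ j, Word μ (w j) (c j) (d j) (k j)) (hs : ∀ j, s j ∈ Icc (0:ℝ) 1)
    (hws : ∀ j, w j (s j) = node N j) (h1 : ∀ j, 1 / (d j * (c j + d j)) < η)
    (h2 : ∀ j, c j + d j ≤ 2 / η) {E : ℕ → Set ℝ} (hE : ∀ j, MeasurableSet (E j))
    (hE2 : ∀ j < N, 1 / 2 ≤ μ.real (E j)) {y : ℝ} (hy : y ∈ Icc (0:ℝ) 1) :
    -(N * Real.log 4 + 1 + 2 * C0 + 4 * Real.log (16 * (N:ℝ) ^ 3)) ≤
      ∑ j ∈ Finset.range N, (μ.real (E j))⁻¹ * ∫ x in E j, Real.log |w j x - y| ∂μ := by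
  have hN' : (0:ℝ) < N := by exact_mod_cast hN
  have hN1 : (1:ℝ) ≤ N := by exact_mod_cast hN
  have hη0 : 0 < η := by rw [hη]; positivity
  obtain ⟨j0, hj0, hprod, hsep⟩ := nodes_good hN hy
  rw [← Finset.add_sum_erase _ _ (Finset.mem_range.mpr hj0)]
  have hfirst : -(2 * C0 + 4 * Real.log (16 * (N:ℝ) ^ 3)) ≤
      (μ.real (E j0))⁻¹ * ∫ x in E j0, Real.log |w j0 x - y| ∂μ := by
    refine le_trans ?_ ((W j0).set_int_ge hμ hy (hE j0) (hE2 j0 hj0))
    have h3 : Real.log (c j0 + d j0) ≤ Real.log (16 * (N:ℝ) ^ 3) := by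
      apply Real.log_le_log
      · have := (W j0).c0; have := (W j0).d1; linarith
      · refine (h2 j0).trans (le_of_eq ?_)
        rw [hη]; field_simp; norm_num
    linarith
  have hrest : ∀ j ∈ (Finset.range N).erase j0, Real.log |y - node N j| - 1 / N ≤
      (μ.real (E j))⁻¹ * ∫ x in E j, Real.log |w j x - y| ∂μ := by
    intro j hj
    have hjN : j < N := Finset.mem_range.mp (Finset.mem_of_mem_erase hj)
    have hjne : j ≠ j0 := Finset.ne_of_mem_erase hj
    apply (W j).const_le hμ hy (hE2 j hjN)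
    intro x hx
    have h3 := (W j).close hx (hs j)
    rw [hws j] at h3
    have h4 : |w j x - node N j| ≤ η := h3.trans (h1 j).le
    have h5 := hsep j hjN hjne
    have h6 : 0 < |y - node N j| := lt_of_lt_of_le (by positivity) h5
    have h7 : |y - node N j| ≤ |w j x - y| + |w j x - node N j| := by
      have : y - node N j = (w j x - node N j) - (w j x - y) := by ring
      rw [this]; refine (abs_sub _ _).trans (by linarith)
    have h8 : η ≤ |y - node N j| * (1 / (2 * N)) := by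
      calc η = 1 / (4 * (N:ℝ) ^ 2) * (1 / (2 * N)) := by rw [hη]; field_simp; norm_num
        _ ≤ _ := by gcongr
    have h9 : |y - node N j| * (1 - 1 / (2 * N)) ≤ |w j x - y| := by
      have : |y - node N j| * (1 - 1 / (2 * N)) = |y - node N j| - |y - node N j| * (1 / (2 * N)) := by ring
      rw [this]; linarith
    have h10 : 1 / (2 * (N:ℝ)) ≤ 1 / 2 := by
      apply one_div_le_one_div_of_le (by norm_num); linarith
    have h11 : 0 < 1 - 1 / (2 * (N:ℝ)) := by linarith
    have h12 : Real.log (|y - node N j| * (1 - 1 / (2 * N))) ≤ Real.log |w j x - y| :=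
      Real.log_le_log (by positivity) h9
    rw [Real.log_mul h6.ne' h11.ne'] at h12
    have h13 : -(1 / (N:ℝ)) ≤ Real.log (1 - 1 / (2 * N)) := by
      have h14 := Real.one_sub_inv_le_log_of_pos h11
      refine le_trans ?_ h14
      have h15 : (1 - 1 / (2 * (N:ℝ)))⁻¹ ≤ 1 + 1 / N := by
        rw [inv_le_comm₀ h11 (by positivity)]
        rw [inv_eq_one_div, div_le_iff₀ (by positivity)]
        have h16 : 0 < 1 / (N:ℝ) := by positivity
        have h17 : 1 / (2 * (N:ℝ)) = 1 / N / 2 := by field_simp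
        have h18 : 1 / (N:ℝ) ≤ 1 := by rw [div_le_one hN']; exact hN1
        rw [h17]; nlinarith
      linarith
    linarith
  have hsum := Finset.sum_le_sum hrest
  rw [Finset.sum_sub_distrib, Finset.sum_const, Finset.card_erase_of_mem (Finset.mem_range.mpr hj0),
    Finset.card_range, nsmul_eq_mul] at hsum
  have hlog : Real.log (∏ j ∈ (Finset.range N).erase j0, |y - node N j|) =
      ∑ j ∈ (Finset.range N).erase j0, Real.log |y - node N j| := by
    apply Real.log_prod
    intro j hj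
    have := hsep j (Finset.mem_range.mp (Finset.mem_of_mem_erase hj)) (Finset.ne_of_mem_erase hj)
    have h0 : 0 < 1 / (4 * (N:ℝ) ^ 2) := by positivity
    linarith
  have hlog2 : -(N * Real.log 4) ≤ ∑ j ∈ (Finset.range N).erase j0, Real.log |y - node N j| := by
    rw [← hlog]
    have := Real.log_le_log (by positivity) hprod
    rw [one_div, Real.log_inv, Real.log_pow] at this
    linarith
  have hcast : ((N - 1 : ℕ):ℝ) * (1 / N) ≤ 1 := by
    rw [mul_one_div, div_le_one hN']
    exact_mod_cast Nat.sub_le _ _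
  linarith

lemma exists_N {ε : ℝ} (hε : 0 < ε) : ∃ N : ℕ, 0 < N ∧
    1 + 2 * C0 + 4 * Real.log (16 * (N:ℝ) ^ 3) ≤ N * ε := by
  set A := 1 + 2 * C0 + 4 * Real.log 16 with hA
  have hA0 : 0 ≤ A := by
    have := C0_nonneg
    have : 0 ≤ Real.log 16 := Real.log_nonneg (by norm_num)
    linarith
  obtain ⟨n, hn⟩ := exists_nat_gt ((A + 24) / ε)
  have hn0 : 0 < n := by
    have : 0 ≤ (A + 24) / ε := by positivity
    exact_mod_cast (lt_of_le_of_lt this hn)
  have hn' : (0:ℝ) < n := by exact_mod_cast hn0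
  have hn1 : (1:ℝ) ≤ n := by exact_mod_cast hn0
  refine ⟨n ^ 2, by positivity, ?_⟩
  rw [div_lt_iff₀ hε] at hn
  have h1 : Real.log (16 * (((n ^ 2 : ℕ):ℝ)) ^ 3) = Real.log 16 + 6 * Real.log n := by
    rw [Real.log_mul (by norm_num) (by positivity)]
    push_cast
    rw [← pow_mul, Real.log_pow]; norm_num
  have h2 : Real.log n ≤ n := by
    have := Real.log_le_sub_one_of_pos hn'
    linarith
  rw [h1]
  push_cast
  nlinarith

end Avg

section Key

variable {μ : Measure ℝ} [IsProbabilityMeasure μ]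

/-- nearest point of `[0,1]` to the real part of `a` -/
def prj (a : ℂ) : ℝ := max 0 (min 1 a.re)

lemma prj_mem (a : ℂ) : prj a ∈ Icc (0:ℝ) 1 :=
  ⟨le_max_left _ _, max_le zero_le_one (min_le_left _ _)⟩

lemma prj_le (a : ℂ) {x : ℝ} (hx : x ∈ Icc (0:ℝ) 1) : |x - prj a| ≤ ‖(x:ℂ) - a‖ := by
  have h1 : |x - prj a| ≤ |x - a.re| := by
    unfold prj
    rcases le_total a.re 1 with h | h
    · rw [min_eq_right h]
      rcases le_total 0 a.re with h' | h'
      · rw [max_eq_right h']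
      · rw [max_eq_left h', abs_of_nonneg (by linarith [hx.1]), abs_of_nonneg (by linarith [hx.1])]
        linarith
    · rw [min_eq_left h, max_eq_right zero_le_one, abs_of_nonpos (by linarith [hx.2]),
        abs_of_nonpos (by linarith [hx.2])]
      linarith
  have h2 := Complex.abs_re_le_norm ((x:ℂ) - a)
  simp only [Complex.sub_re, Complex.ofReal_re] at h2
  exact h1.trans h2

lemma log_sum_le (s : Multiset ℂ) {x : ℝ} (hx : x ∈ Icc (0:ℝ) 1) (h : ∀ a ∈ s, x ≠ prj a) :
    0 < ‖(s.map (fun a => (x:ℂ) - a)).prod‖ ∧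
      (s.map (fun a => Real.log |x - prj a|)).sum ≤ Real.log ‖(s.map (fun a => (x:ℂ) - a)).prod‖ := by
  induction s using Multiset.induction_on with
  | empty => simp
  | cons a s ih =>
    obtain ⟨h1, h2⟩ := ih (fun b hb => h b (Multiset.mem_cons_of_mem hb))
    have h3 : 0 < |x - prj a| := abs_pos.mpr (sub_ne_zero.mpr (h a (Multiset.mem_cons_self a s)))
    have h4 := prj_le a hx
    have h5 : 0 < ‖(x:ℂ) - a‖ := lt_of_lt_of_le h3 h4
    rw [Multiset.map_cons, Multiset.prod_cons, Multiset.map_cons, Multiset.sum_cons, norm_mul,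
      Real.log_mul h5.ne' h1.ne']
    exact ⟨mul_pos h5 h1, add_le_add (Real.log_le_log h3 h4) h2⟩

lemma multi_integrable (hμ : HasCDF μ) {w : ℝ → ℝ} {c d : ℝ} {k : ℕ} (W : Word μ w c d k)
    (s : Multiset ℂ) : Integrable (fun x => (s.map (fun a => Real.log |w x - prj a|)).sum) μ := by
  induction s using Multiset.induction_on with
  | empty => simp
  | cons a s ih =>
    simp only [Multiset.map_cons, Multiset.sum_cons]
    exact (W.integrable hμ (prj_mem a)).add ih

lemma multi_ge (hμ : HasCDF μ) {N : ℕ} {w : ℕ → ℝ → ℝ} {c d : ℕ → ℝ} {k : ℕ → ℕ}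
    (W : ∀ j, Word μ (w j) (c j) (d j) (k j)) {E : ℕ → Set ℝ} {R : ℝ}
    (h : ∀ y ∈ Icc (0:ℝ) 1, -R ≤
      ∑ j ∈ Finset.range N, (μ.real (E j))⁻¹ * ∫ x in E j, Real.log |w j x - y| ∂μ)
    (s : Multiset ℂ) : -((Multiset.card s : ℝ) * R) ≤
      ∑ j ∈ Finset.range N, (μ.real (E j))⁻¹ *
        ∫ x in E j, (s.map (fun a => Real.log |w j x - prj a|)).sum ∂μ := by
  induction s using Multiset.induction_on with
  | empty => simp
  | cons a s ih =>
    simp only [Multiset.map_cons, Multiset.sum_cons, Multiset.card_cons]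
    have h1 : ∀ j, ∫ x in E j, (Real.log |w j x - prj a| +
        (s.map (fun a => Real.log |w j x - prj a|)).sum) ∂μ =
        ∫ x in E j, Real.log |w j x - prj a| ∂μ +
        ∫ x in E j, (s.map (fun a => Real.log |w j x - prj a|)).sum ∂μ := fun j =>
      integral_add ((W j).integrable hμ (prj_mem a)).restrict (multi_integrable hμ (W j) s).restrict
    simp_rw [h1, mul_add, Finset.sum_add_distrib]
    have h2 := h _ (prj_mem a)
    push_cast
    linarith

theorem key (hμ : HasCDF μ) {ε : ℝ} (hε : 0 < ε) : ∃ δ : ENNReal, δ ≠ 0 ∧ ∀ K : Set ℝ,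
    MeasurableSet K → μ Kᶜ ≤ δ → ∀ p : ℂ[X], p.Monic → ∀ m : ℝ, 0 < m →
    (∀ x ∈ K, x ∈ Icc (0:ℝ) 1 → ‖p.eval (x:ℂ)‖ ≤ m) →
    -(p.natDegree * (Real.log 4 + ε)) ≤ Real.log m := by
  obtain ⟨N, hN, hNε⟩ := exists_N hε
  have hN' : (0:ℝ) < N := by exact_mod_cast hN
  have hN1 : (1:ℝ) ≤ N := by exact_mod_cast hN
  set η : ℝ := 1 / (8 * (N:ℝ) ^ 3) with hη
  have hη0 : 0 < η := by positivity
  have hη1 : η ≤ 1 := by
    rw [hη, div_le_one (by positivity)]
    have : (1:ℝ) ≤ (N:ℝ) ^ 3 := one_le_pow₀ hN1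
    linarith
  have hw := fun j => exists_word hμ (node_mem N j) hη0 hη1
  choose w c d k s W hs hws h1 h2 using hw
  set S := ∑ j ∈ Finset.range N, k j with hS
  refine ⟨((2:ENNReal) ^ (S + 1))⁻¹, ENNReal.inv_ne_zero.mpr (by finiteness), ?_⟩
  intro K hK hKδ p hp m hm hbound
  set E : ℕ → Set ℝ := fun j => w j ⁻¹' K with hEdef
  have hE : ∀ j, MeasurableSet (E j) := fun j => (W j).meas hK
  have hE2 : ∀ j < N, 1 / 2 ≤ μ.real (E j) := by
    intro j hj
    have h3 : μ (E j)ᶜ ≤ 2⁻¹ := by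
      have e : (E j)ᶜ = w j ⁻¹' Kᶜ := rfl
      rw [e, ← Measure.map_apply (W j).meas hK.compl]
      have h4 := (W j).push Kᶜ
      rw [Measure.smul_apply, smul_eq_mul] at h4
      have h5 : k j ≤ S := Finset.single_le_sum (f := k) (fun _ _ => Nat.zero_le _) (Finset.mem_range.mpr hj)
      calc (μ.map (w j)) Kᶜ ≤ 2 ^ k j * μ Kᶜ := h4
        _ ≤ 2 ^ S * ((2:ENNReal) ^ (S + 1))⁻¹ := by
            gcongr
            norm_num
        _ = 2⁻¹ := by
            rw [pow_succ, ENNReal.mul_inv (by simp) (by simp), ← mul_assoc,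
              ENNReal.mul_inv_cancel (by simp) (by finiteness), one_mul]
    have h6 : μ.real (E j)ᶜ ≤ 1 / 2 := by
      have := ENNReal.toReal_mono (by simp) h3
      simpa [Measure.real] using this
    have h7 := probReal_compl_eq_one_sub (μ := μ) (hE j)
    linarith
  set R := N * Real.log 4 + 1 + 2 * C0 + 4 * Real.log (16 * (N:ℝ) ^ 3) with hR
  have hge := multi_ge hμ (N := N) (E := E) (R := R) W
    (fun y hy => avg_ge hμ hN hη W hs hws h1 h2 hE hE2 hy) p.roots
  have hsplit := IsAlgClosed.splits p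
  have hcard : Multiset.card p.roots = p.natDegree := hsplit.natDegree_eq_card_roots.symm
  have heval : ∀ x : ℂ, p.eval x = (p.roots.map (fun a => x - a)).prod := by
    intro x
    conv_lhs => rw [hsplit.eq_prod_roots_of_monic hp]
    rw [eval_multiset_prod, Multiset.map_map]
    simp
  have hle : ∀ j ∈ Finset.range N, (μ.real (E j))⁻¹ *
      ∫ x in E j, (p.roots.map (fun a => Real.log |w j x - prj a|)).sum ∂μ ≤ Real.log m := by
    intro j hj
    have hE0 : 0 < μ.real (E j) := by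
      have := hE2 j (Finset.mem_range.mp hj); linarith
    have h3 : ∫ x in E j, (p.roots.map (fun a => Real.log |w j x - prj a|)).sum ∂μ ≤
        ∫ _x in E j, Real.log m ∂μ := by
      apply integral_mono_ae (multi_integrable hμ (W j) _).restrict (integrable_const _)
      have hne : ∀ᵐ x ∂μ, ∀ a ∈ p.roots.toFinset, w j x ≠ prj a := by
        rw [Finset.eventually_all]
        intro a _
        exact (W j).ae_ne hμ (prj a)
      have hr := ae_restrict_mem (μ := μ) (hE j)
      filter_upwards [ae_restrict_of_ae hne, ae_restrict_of_ae (ae_mem hμ), hr] with x hx1 hx2 hx3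
      have hm2 := (W j).maps x hx2
      obtain ⟨h4, h5⟩ := log_sum_le p.roots hm2 (fun a ha => hx1 a (Multiset.mem_toFinset.mpr ha))
      rw [← heval] at h4 h5
      exact h5.trans (Real.log_le_log h4 (hbound _ hx3 hm2))
    rw [setIntegral_const, smul_eq_mul] at h3
    rw [inv_mul_eq_div, div_le_iff₀ hE0]
    linarith
  have hsum := Finset.sum_le_sum hle
  rw [Finset.sum_const, Finset.card_range, nsmul_eq_mul] at hsum
  rw [hcard] at hge
  have h3 : R ≤ N * (Real.log 4 + ε) := by rw [hR]; linarith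
  have h4 : (p.natDegree:ℝ) * R ≤ p.natDegree * (N * (Real.log 4 + ε)) := by gcongr
  have h5 : (N:ℝ) * -(p.natDegree * (Real.log 4 + ε)) ≤ N * Real.log m := by linarith
  exact le_of_mul_le_mul_left h5 hN'

end Key

/-! ### Capacity and carrier capacity -/

/-- the sup norm of a complex polynomial on a set -/
def supNorm (p : ℂ[X]) (K : Set ℂ) : ℝ := sSup ((fun z => ‖p.eval z‖) '' K)

/-- The logarithmic capacity of a compact set `K ⊂ ℂ`, as its Chebyshev constant: the infimum of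
`‖p‖_K ^ (1 / deg p)` over all monic polynomials `p` of degree at least one. -/
def cap (K : Set ℂ) : ℝ :=
  sInf {r : ℝ | ∃ p : ℂ[X], p.Monic ∧ 1 ≤ p.natDegree ∧ r = supNorm p K ^ ((1:ℝ) / p.natDegree)}

/-- the inner capacity of a set of reals: the supremum of the capacities of its compact subsets -/
def capBorel (B : Set ℝ) : ENNReal :=
  ⨆ (K : Set ℝ) (_ : IsCompact K) (_ : K ⊆ B), ENNReal.ofReal (cap ((fun x : ℝ => (x : ℂ)) '' K))

/-- the minimal carrier capacity `c(μ)` -/
def carrierCap (μ : Measure ℝ) : ENNReal :=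
  ⨅ (B : Set ℝ) (_ : MeasurableSet B) (_ : μ Bᶜ = 0), capBorel B

/-- monic Chebyshev polynomial of `[0,1]` -/
def chebP (n : ℕ) : ℝ[X] := ∏ j ∈ Finset.range n, (X - C (node n j))

lemma chebP_monic (n : ℕ) : (chebP n).Monic := monic_prod_of_monic _ _ (fun _ _ => monic_X_sub_C _)

lemma chebP_natDegree (n : ℕ) : (chebP n).natDegree = n := by
  unfold chebP
  rw [natDegree_prod_of_monic _ _ (fun _ _ => monic_X_sub_C _)]
  simp

lemma chebP_bound {n : ℕ} (hn : n ≠ 0) {x : ℝ} (hx : x ∈ Icc (0:ℝ) 1) :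
    |(chebP n).eval x| ≤ 2 / 4 ^ n := by
  have h1 : Real.cos (Real.arccos (2 * x - 1)) = 2 * x - 1 :=
    Real.cos_arccos (by linarith [hx.1]) (by linarith [hx.2])
  have h2 := prod_node n hn (Real.arccos (2 * x - 1))
  rw [h1] at h2
  have h3 : (1 + (2 * x - 1)) / 2 = x := by ring
  rw [h3] at h2
  unfold chebP
  rw [eval_prod]
  simp only [eval_sub, eval_X, eval_C]
  rw [h2, abs_mul, abs_of_pos (by positivity)]
  have h4 := Real.abs_cos_le_one (n * Real.arccos (2 * x - 1))
  have h5 : (0:ℝ) < 2 / 4 ^ n := by positivity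
  nlinarith

lemma supNorm_nonneg (p : ℂ[X]) (K : Set ℂ) : 0 ≤ supNorm p K := by
  unfold supNorm
  apply Real.sSup_nonneg
  rintro _ ⟨z, _, rfl⟩
  exact norm_nonneg _

lemma root_seq : Tendsto (fun n : ℕ => (2:ℝ) ^ ((1:ℝ) / n) / 4) atTop (𝓝 (1 / 4)) := by
  have h1 : Tendsto (fun n : ℕ => (1:ℝ) / n) atTop (𝓝 0) := tendsto_one_div_atTop_nhds_zero_nat
  have h2 : Tendsto (fun n : ℕ => (2:ℝ) ^ ((1:ℝ) / n)) atTop (𝓝 ((2:ℝ) ^ (0:ℝ))) :=
    (Real.continuous_const_rpow (by norm_num : (2:ℝ) ≠ 0)).continuousAt.tendsto.comp h1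
  rw [Real.rpow_zero] at h2
  exact h2.div_const 4

lemma root_eq {n : ℕ} (hn : n ≠ 0) : ((2:ℝ) / 4 ^ n) ^ ((1:ℝ) / n) = (2:ℝ) ^ ((1:ℝ) / n) / 4 := by
  rw [Real.div_rpow (by norm_num) (by positivity)]
  congr 1
  rw [one_div, Real.pow_rpow_inv_natCast (by norm_num) hn]

lemma cap_le {K : Set ℝ} (hK : K ⊆ Icc 0 1) : cap ((fun x : ℝ => (x : ℂ)) '' K) ≤ 1 / 4 := by
  apply ge_of_tendsto root_seq
  filter_upwards [eventually_ge_atTop 1] with n hn
  have hn0 : n ≠ 0 := by omega
  have hmap : ((chebP n).map (algebraMap ℝ ℂ)).Monic := (chebP_monic n).map _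
  have hdeg : ((chebP n).map (algebraMap ℝ ℂ)).natDegree = n := by
    rw [natDegree_map, chebP_natDegree]
  have h1 : supNorm ((chebP n).map (algebraMap ℝ ℂ)) ((fun x : ℝ => (x : ℂ)) '' K) ≤ 2 / 4 ^ n := by
    unfold supNorm
    apply Real.sSup_le _ (by positivity)
    rintro _ ⟨_, ⟨x, hx, rfl⟩, rfl⟩
    have h2 : eval ((x:ℝ):ℂ) ((chebP n).map (algebraMap ℝ ℂ)) = (((chebP n).eval x : ℝ) : ℂ) := by
      rw [← Complex.coe_algebraMap, eval_map_algebraMap, aeval_algebraMap_apply]
      simp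
    show ‖eval ((x:ℝ):ℂ) ((chebP n).map (algebraMap ℝ ℂ))‖ ≤ _
    rw [h2, Complex.norm_real, Real.norm_eq_abs]
    exact chebP_bound hn0 (hK hx)
  have h3 : cap ((fun x : ℝ => (x : ℂ)) '' K) ≤
      supNorm ((chebP n).map (algebraMap ℝ ℂ)) ((fun x : ℝ => (x : ℂ)) '' K) ^ ((1:ℝ) / n) := by
    unfold cap
    apply csInf_le
    · refine ⟨0, ?_⟩
      rintro _ ⟨p, _, _, rfl⟩
      exact Real.rpow_nonneg (supNorm_nonneg _ _) _
    · exact ⟨_, hmap, by rw [hdeg]; exact hn, by rw [hdeg]⟩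
  refine h3.trans ?_
  rw [← root_eq hn0]
  exact Real.rpow_le_rpow (supNorm_nonneg _ _) h1 (by positivity)

lemma le_cap {K : Set ℝ} (hK : IsCompact K) {L : ℝ}
    (h : ∀ p : ℂ[X], p.Monic → ∀ m : ℝ, 0 < m → (∀ x ∈ K, ‖p.eval (x:ℂ)‖ ≤ m) →
      -(p.natDegree * L) ≤ Real.log m) :
    Real.exp (-L) ≤ cap ((fun x : ℝ => (x : ℂ)) '' K) := by
  unfold cap
  apply le_csInf
  · exact ⟨_, X, monic_X, by simp, rfl⟩
  rintro _ ⟨p, hp, hdeg, rfl⟩
  set S := supNorm p ((fun x : ℝ => (x : ℂ)) '' K) with hS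
  have hdeg' : (0:ℝ) < p.natDegree := by exact_mod_cast hdeg
  have hbdd : BddAbove ((fun z => ‖p.eval z‖) '' ((fun x : ℝ => (x : ℂ)) '' K)) := by
    have h1 : IsCompact ((fun x : ℝ => (x : ℂ)) '' K) := hK.image Complex.continuous_ofReal
    exact (h1.image (by fun_prop)).bddAbove
  have hSle : ∀ x ∈ K, ‖p.eval (x:ℂ)‖ ≤ S := fun x hx =>
    le_csSup hbdd ⟨(x:ℂ), ⟨x, hx, rfl⟩, rfl⟩
  have hS0 : 0 ≤ S := supNorm_nonneg _ _
  have h1 : Real.exp (-(p.natDegree * L)) ≤ S := by
    apply le_of_forall_gt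
    intro m hm
    have hm0 : 0 < m := lt_of_le_of_lt hS0 hm
    have := h p hp ((S + m) / 2) (by linarith) (fun x hx => (hSle x hx).trans (by linarith))
    rw [← Real.exp_le_exp, Real.exp_log (by linarith)] at this
    linarith
  calc Real.exp (-L) = (Real.exp (-(p.natDegree * L))) ^ ((1:ℝ) / p.natDegree) := by
        rw [← Real.exp_mul]; congr 1; field_simp
    _ ≤ S ^ ((1:ℝ) / p.natDegree) := Real.rpow_le_rpow (Real.exp_pos _).le h1 (by positivity)

section Car

variable {μ : Measure ℝ} [IsProbabilityMeasure μ]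

lemma exp_seq : Tendsto (fun n : ℕ => Real.exp (-(Real.log 4 + 2 * (1 / ((n:ℝ) + 1))))) atTop
    (𝓝 (1 / 4)) := by
  have h1 : Tendsto (fun n : ℕ => 1 / ((n:ℝ) + 1)) atTop (𝓝 0) := tendsto_one_div_add_atTop_nhds_zero_nat
  have h2 : Tendsto (fun n : ℕ => -(Real.log 4 + 2 * (1 / ((n:ℝ) + 1)))) atTop
      (𝓝 (-(Real.log 4 + 2 * 0))) := (tendsto_const_nhds.add (h1.const_mul 2)).neg
  have h3 := (Real.continuous_exp.tendsto _).comp h2
  have h4 : Real.exp (-(Real.log 4 + 2 * 0)) = 1 / 4 := by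
    rw [mul_zero, add_zero, Real.exp_neg, Real.exp_log (by norm_num)]; norm_num
  rw [h4] at h3
  exact h3

theorem carrierCap_eq (hμ : HasCDF μ) : carrierCap μ = ENNReal.ofReal (1 / 4) := by
  apply le_antisymm
  · unfold carrierCap
    refine iInf_le_of_le (Icc 0 1) (iInf_le_of_le measurableSet_Icc (iInf_le_of_le ?_ ?_))
    · exact mu_eq_zero' hμ (fun x hx h => h hx)
    · unfold capBorel
      refine iSup_le fun K => iSup_le fun _ => iSup_le fun hK => ?_
      exact ENNReal.ofReal_le_ofReal (cap_le hK)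
  · unfold carrierCap
    refine le_iInf fun B => le_iInf fun hB => le_iInf fun hB0 => ?_
    have h1 : Tendsto (fun n : ℕ => ENNReal.ofReal
        (Real.exp (-(Real.log 4 + 2 * (1 / ((n:ℝ) + 1)))))) atTop (𝓝 (ENNReal.ofReal (1 / 4))) :=
      ENNReal.tendsto_ofReal exp_seq
    refine le_of_tendsto' h1 (fun n => ?_)
    have hε : 0 < 2 * (1 / ((n:ℝ) + 1)) := by positivity
    obtain ⟨δ, hδ, hkey⟩ := key hμ hε
    have hA : MeasurableSet (B ∩ Icc 0 1) := hB.inter measurableSet_Icc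
    obtain ⟨K, hKA, hKc, hKδ⟩ := hA.exists_isCompact_sdiff_lt (μ := μ) (measure_ne_top _ _) hδ
    have hAc : μ (B ∩ Icc 0 1)ᶜ = 0 := by
      rw [compl_inter]
      exact measure_union_null hB0 (mu_eq_zero' hμ (fun x hx h => h hx))
    have hKδ' : μ Kᶜ ≤ δ := by
      calc μ Kᶜ ≤ μ ((B ∩ Icc 0 1) \ K ∪ (B ∩ Icc 0 1)ᶜ) := by
            apply measure_mono
            intro x hx
            by_cases h : x ∈ B ∩ Icc 0 1
            · exact Or.inl ⟨h, hx⟩
            · exact Or.inr h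
        _ ≤ μ ((B ∩ Icc 0 1) \ K) + μ (B ∩ Icc 0 1)ᶜ := measure_union_le _ _
        _ ≤ δ := by rw [hAc, add_zero]; exact hKδ.le
    have h2 := le_cap hKc (L := Real.log 4 + 2 * (1 / ((n:ℝ) + 1))) (fun p hp m hm hb =>
      hkey K hKc.measurableSet hKδ' p hp m hm (fun x hx _ => hb x hx))
    unfold capBorel
    exact le_iSup_of_le K (le_iSup_of_le hKc (le_iSup_of_le (hKA.trans inter_subset_left)
      (ENNReal.ofReal_le_ofReal h2)))

end Car

/-! ### Orthonormal polynomials -/

/-- `p` is the sequence of orthonormal polynomials of `μ` (positive leading coefficients), with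
three-term recurrence `x p_n = a_{n+1} p_{n+1} + b_n p_n + a_n p_{n-1}`. -/
structure IsOrthonormalSystem (μ : Measure ℝ) (p : ℕ → ℝ[X]) (a b : ℕ → ℝ) : Prop where
  natDegree_eq : ∀ n, (p n).natDegree = n
  leadingCoeff_pos : ∀ n, 0 < (p n).leadingCoeff
  orthonormal : ∀ m n, ∫ x, (p m).eval x * (p n).eval x ∂μ = if m = n then 1 else 0
  a_pos : ∀ n, 0 < a (n + 1)
  rec_zero : X * p 0 = C (a 1) * p 1 + C (b 0) * p 0
  rec_succ : ∀ n, X * p (n + 1) = C (a (n + 2)) * p (n + 2) + C (b (n + 1)) * p (n + 1)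
    + C (a (n + 1)) * p n

section Orth

variable {μ : Measure ℝ} [IsProbabilityMeasure μ] {p : ℕ → ℝ[X]} {a b : ℕ → ℝ}

lemma cont_integrable (hμ : HasCDF μ) {f : ℝ → ℝ} (hf : Continuous f) : Integrable f μ := by
  have h1 : IntegrableOn f (Icc 0 1) μ := hf.continuousOn.integrableOn_compact isCompact_Icc
  rwa [IntegrableOn, Measure.restrict_eq_self_of_ae_mem (ae_mem hμ)] at h1

lemma lead_rec (h : IsOrthonormalSystem μ p a b) (n : ℕ) :
    (p n).leadingCoeff = a (n + 1) * (p (n + 1)).leadingCoeff := by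
  have hlc : ∀ m, (p m).coeff m = (p m).leadingCoeff := fun m => by
    rw [leadingCoeff, h.natDegree_eq]
  have hz : ∀ m k, m < k → (p m).coeff k = 0 := fun m k hk =>
    coeff_eq_zero_of_natDegree_lt (by rw [h.natDegree_eq]; exact hk)
  cases n with
  | zero =>
    have h1 := congrArg (fun q => coeff q 1) h.rec_zero
    simp only [coeff_X_mul, coeff_add, coeff_C_mul] at h1
    rw [hz 0 1 one_pos, mul_zero, add_zero, hlc, hlc] at h1
    exact h1
  | succ n =>
    have h1 := congrArg (fun q => coeff q (n + 2)) (h.rec_succ n)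
    simp only [coeff_X_mul, coeff_add, coeff_C_mul] at h1
    rw [hz (n+1) (n+2) (by omega), hz n (n+2) (by omega), mul_zero, mul_zero, add_zero, add_zero,
      hlc, hlc] at h1
    exact h1

lemma lead_zero (hμ : HasCDF μ) (h : IsOrthonormalSystem μ p a b) : (p 0).leadingCoeff = 1 := by
  have h1 := h.orthonormal 0 0
  have h2 : p 0 = C ((p 0).coeff 0) := eq_C_of_natDegree_eq_zero (h.natDegree_eq 0)
  have h3 : (p 0).coeff 0 = (p 0).leadingCoeff := by rw [leadingCoeff, h.natDegree_eq]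
  rw [h3] at h2
  have h4 : ∀ x, (p 0).eval x = (p 0).leadingCoeff := fun x => by
    conv_lhs => rw [h2]
    simp
  simp only [h4, integral_const, probReal_univ, one_smul, if_true] at h1
  have h5 := h.leadingCoeff_pos 0
  nlinarith

lemma prod_a (hμ : HasCDF μ) (h : IsOrthonormalSystem μ p a b) (n : ℕ) :
    (∏ i ∈ Finset.range n, a (i + 1)) * (p n).leadingCoeff = 1 := by
  induction n with
  | zero => simp [lead_zero hμ h]
  | succ n ih =>
    rw [Finset.prod_range_succ, mul_assoc, ← lead_rec h n, ih]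

lemma orth_low (hμ : HasCDF μ) (h : IsOrthonormalSystem μ p a b) (n : ℕ) : ∀ m ≤ n, ∀ q : ℝ[X],
    q.degree < m → ∫ x, q.eval x * (p n).eval x ∂μ = 0 := by
  intro m
  induction m with
  | zero =>
    intro _ q hq
    have : q = 0 := by
      rw [← degree_eq_bot]
      simpa using hq
    simp [this]
  | succ m ih =>
    intro hm q hq
    have hlead : (p m).coeff m = (p m).leadingCoeff := by rw [leadingCoeff, h.natDegree_eq]
    have hpos := h.leadingCoeff_pos m
    set c := q.coeff m / (p m).leadingCoeff with hc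
    have hdeg : (q - C c * p m).degree < m := by
      rw [degree_lt_iff_coeff_zero]
      intro k hk
      rw [coeff_sub, coeff_C_mul]
      rcases eq_or_lt_of_le hk with h1 | h1
      · rw [← h1, hlead, hc]; field_simp; ring
      · rw [coeff_eq_zero_of_natDegree_lt (p := p m) (by rw [h.natDegree_eq]; exact h1)]
        rw [degree_lt_iff_coeff_zero] at hq
        rw [hq k (by omega)]; simp
    have h1 := ih (by omega) _ hdeg
    have h2 := h.orthonormal m n
    rw [if_neg (by omega)] at h2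
    have h3 : ∀ x, q.eval x * (p n).eval x = (q - C c * p m).eval x * (p n).eval x +
        c * ((p m).eval x * (p n).eval x) := fun x => by
      simp only [eval_sub, eval_mul, eval_C]; ring
    simp_rw [h3]
    rw [integral_add (cont_integrable hμ (by fun_prop)) (cont_integrable hμ (by fun_prop)),
      integral_const_mul, h1, h2]
    simp

lemma g_upper (hμ : HasCDF μ) (h : IsOrthonormalSystem μ p a b) {n : ℕ} (hn : n ≠ 0) :
    ∏ i ∈ Finset.range n, a (i + 1) ≤ 2 / 4 ^ n := by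
  have hpos := h.leadingCoeff_pos n
  have hg : ∏ i ∈ Finset.range n, a (i + 1) = 1 / (p n).leadingCoeff := by
    rw [eq_div_iff hpos.ne']; exact prod_a hμ h n
  have hdeg : (chebP n - C (1 / (p n).leadingCoeff) * p n).degree < n := by
    rw [degree_lt_iff_coeff_zero]
    intro k hk
    rw [coeff_sub, coeff_C_mul]
    rcases eq_or_lt_of_le hk with h1 | h1
    · rw [← h1]
      have e1 : (chebP n).coeff n = 1 := by
        have := (chebP_monic n).coeff_natDegree
        rwa [chebP_natDegree] at this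
      have e2 : (p n).coeff n = (p n).leadingCoeff := by rw [leadingCoeff, h.natDegree_eq]
      rw [e1, e2]; field_simp; ring
    · rw [coeff_eq_zero_of_natDegree_lt (p := p n) (by rw [h.natDegree_eq]; exact h1),
        coeff_eq_zero_of_natDegree_lt (p := chebP n) (by rw [chebP_natDegree]; exact h1)]
      simp
  have h1 := orth_low hμ h n n le_rfl _ hdeg
  have h2 := h.orthonormal n n
  rw [if_pos rfl] at h2
  have h3 : ∫ x, (chebP n).eval x * (p n).eval x ∂μ = 1 / (p n).leadingCoeff := by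
    have e : ∀ x, (chebP n).eval x * (p n).eval x =
        (chebP n - C (1 / (p n).leadingCoeff) * p n).eval x * (p n).eval x +
        1 / (p n).leadingCoeff * ((p n).eval x * (p n).eval x) := fun x => by
      simp only [eval_sub, eval_mul, eval_C]; ring
    simp_rw [e]
    rw [integral_add (cont_integrable hμ (by fun_prop)) (cont_integrable hμ (by fun_prop)),
      integral_const_mul, h1, h2]
    simp
  rw [hg, ← h3]
  have h4 : ∫ x, (chebP n).eval x * (p n).eval x ∂μ ≤
      ∫ x, 2 / 4 ^ n * ((1 + (p n).eval x * (p n).eval x) / 2) ∂μ := by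
    apply integral_mono_ae (cont_integrable hμ (by fun_prop)) (cont_integrable hμ (by fun_prop))
    filter_upwards [ae_mem hμ] with x hx
    have h5 := chebP_bound hn hx
    have h6 : |(p n).eval x| ≤ (1 + (p n).eval x * (p n).eval x) / 2 := by
      have : (p n).eval x * (p n).eval x = |(p n).eval x| * |(p n).eval x| := (abs_mul_abs_self _).symm
      rw [this]; nlinarith [sq_nonneg (|(p n).eval x| - 1)]
    calc (chebP n).eval x * (p n).eval x ≤ |(chebP n).eval x * (p n).eval x| := le_abs_self _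
      _ = |(chebP n).eval x| * |(p n).eval x| := abs_mul _ _
      _ ≤ _ := by gcongr
  refine h4.trans (le_of_eq ?_)
  rw [integral_const_mul, integral_div, integral_add (integrable_const _)
    (cont_integrable hμ (by fun_prop)), h2, integral_const]
  simp

lemma g_lower (hμ : HasCDF μ) (h : IsOrthonormalSystem μ p a b) {ε : ℝ} (hε : 0 < ε) :
    ∀ᶠ n : ℕ in atTop, Real.exp (-(Real.log 4 + 2 * ε)) ^ n ≤ ∏ i ∈ Finset.range n, a (i + 1) := by
  obtain ⟨δ, hδ, hkey⟩ := key hμ hε
  set ρ := Real.exp (-(Real.log 4 + 2 * ε)) with hρ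
  set ρ' := Real.exp (-(Real.log 4 + 3 / 2 * ε)) with hρ'
  have hr : Tendsto (fun n : ℕ => ENNReal.ofReal (((ρ / ρ') ^ 2) ^ n)) atTop (𝓝 (ENNReal.ofReal 0)) := by
    apply ENNReal.tendsto_ofReal
    apply tendsto_pow_atTop_nhds_zero_of_lt_one (by positivity)
    have hlt : ρ < ρ' := Real.exp_lt_exp.mpr (by linarith)
    have h1 : ρ / ρ' < 1 := (div_lt_one (Real.exp_pos _)).mpr hlt
    have h0 : 0 < ρ / ρ' := div_pos (Real.exp_pos _) (Real.exp_pos _)
    nlinarith
  rw [ENNReal.ofReal_zero] at hr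
  filter_upwards [hr.eventually_lt_const (pos_iff_ne_zero.mpr hδ), eventually_ge_atTop 1] with n hn hn1
  by_contra hcon
  push Not at hcon
  have hpos := h.leadingCoeff_pos n
  set γ := (p n).leadingCoeff with hγ
  have hg : ∏ i ∈ Finset.range n, a (i + 1) = 1 / γ := by
    rw [eq_div_iff hpos.ne']; exact prod_a hμ h n
  rw [hg] at hcon
  have hρ0 : 0 < ρ := Real.exp_pos _
  have hρ'0 : 0 < ρ' := Real.exp_pos _
  set t := (γ * ρ' ^ n) ^ 2 with ht
  have ht0 : 0 < t := by positivity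
  -- Markov
  have h2 := h.orthonormal n n
  rw [if_pos rfl] at h2
  have hM : t * μ.real {x | t ≤ (p n).eval x * (p n).eval x} ≤ 1 := by
    have := mul_meas_ge_le_integral_of_nonneg (μ := μ) (f := fun x => (p n).eval x * (p n).eval x)
      (ae_of_all _ (fun x => mul_self_nonneg _)) (cont_integrable hμ (by fun_prop)) t
    rw [h2] at this
    exact this
  set K : Set ℝ := {x | (p n).eval x * (p n).eval x < t} with hK
  have hKm : MeasurableSet K := measurableSet_lt (by fun_prop) measurable_const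
  have hKc : Kᶜ = {x | t ≤ (p n).eval x * (p n).eval x} := by
    ext x; simp [hK]
  have hKδ : μ Kᶜ ≤ δ := by
    rw [hKc]
    have h3 : μ.real {x | t ≤ (p n).eval x * (p n).eval x} ≤ ((ρ / ρ') ^ 2) ^ n := by
      have h4 : μ.real {x | t ≤ (p n).eval x * (p n).eval x} ≤ 1 / t := by
        rw [le_div_iff₀ ht0]; linarith
      refine h4.trans ?_
      have h5 : 1 / t = (1 / γ) ^ 2 / (ρ' ^ n) ^ 2 := by rw [ht]; field_simp
      have h6 : ((ρ / ρ') ^ 2) ^ n = (ρ ^ n) ^ 2 / (ρ' ^ n) ^ 2 := by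
        rw [div_pow, div_pow, ← pow_mul, ← pow_mul, ← pow_mul, ← pow_mul, mul_comm 2 n]
      rw [h5, h6]
      have h7 : 0 < 1 / γ := by positivity
      gcongr
    have h8 : μ {x | t ≤ (p n).eval x * (p n).eval x} =
        ENNReal.ofReal (μ.real {x | t ≤ (p n).eval x * (p n).eval x}) := by
      rw [ofReal_measureReal]
    rw [h8]
    exact (ENNReal.ofReal_le_ofReal h3).trans hn.le
  have hP : ((C (1 / γ) * p n).map (algebraMap ℝ ℂ)).Monic := by
    apply Monic.map
    rw [Monic, leadingCoeff_mul, leadingCoeff_C, ← hγ]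
    field_simp
  have hPdeg : ((C (1 / γ) * p n).map (algebraMap ℝ ℂ)).natDegree = n := by
    rw [natDegree_map, natDegree_C_mul (by positivity), h.natDegree_eq]
  have hfin := hkey K hKm hKδ _ hP (ρ' ^ n) (by positivity) (by
    intro x hx _
    have h9 : eval ((x:ℝ):ℂ) ((C (1 / γ) * p n).map (algebraMap ℝ ℂ)) =
        (((C (1 / γ) * p n).eval x : ℝ) : ℂ) := by
      rw [← Complex.coe_algebraMap, eval_map_algebraMap, aeval_algebraMap_apply]
      simp
    rw [h9, Complex.norm_real, Real.norm_eq_abs, eval_mul, eval_C, abs_mul,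
      abs_of_pos (show 0 < 1 / γ by positivity)]
    have h10 : |(p n).eval x| ≤ γ * ρ' ^ n := by
      have hx' : (p n).eval x * (p n).eval x < t := hx
      rw [ht] at hx'
      apply abs_le_of_sq_le_sq _ (by positivity)
      rw [sq]; exact hx'.le
    rw [one_div, inv_mul_le_iff₀ hpos]
    exact h10)
  rw [hPdeg, Real.log_pow, hρ', Real.log_exp] at hfin
  have hn' : (1:ℝ) ≤ n := by exact_mod_cast hn1
  nlinarith

theorem g_tendsto (hμ : HasCDF μ) (h : IsOrthonormalSystem μ p a b) :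
    Tendsto (fun n : ℕ => (∏ i ∈ Finset.range n, a (i + 1)) ^ ((1:ℝ) / n)) atTop (𝓝 (1 / 4)) := by
  have hg0 : ∀ n, 0 < ∏ i ∈ Finset.range n, a (i + 1) := fun n =>
    Finset.prod_pos (fun i _ => h.a_pos i)
  rw [tendsto_order]
  constructor
  · intro a' ha'
    obtain ⟨k, hk⟩ := (exp_seq.eventually_const_lt ha').exists
    have hε : 0 < 1 / ((k:ℝ) + 1) := by positivity
    filter_upwards [g_lower hμ h hε, eventually_ge_atTop 1] with n hn hn1
    refine lt_of_lt_of_le hk ?_
    have h1 := Real.rpow_le_rpow (by positivity) hn (show (0:ℝ) ≤ 1 / n by positivity)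
    have hinv : (1:ℝ) / n = (n:ℝ)⁻¹ := one_div _
    rw [hinv] at h1 ⊢
    rwa [Real.pow_rpow_inv_natCast (Real.exp_pos _).le (by omega)] at h1
  · intro a' ha'
    filter_upwards [root_seq.eventually_lt_const ha', eventually_ge_atTop 1] with n hn hn1
    refine lt_of_le_of_lt ?_ hn
    rw [← root_eq (by omega)]
    exact Real.rpow_le_rpow (hg0 n).le (g_upper hμ h (by omega)) (by positivity)

end Orth


/-! ### Existence of the Minkowski measure -/

lemma exists_A {x : ℝ} (hx : x ∈ Icc (0:ℝ) 1) (h : x ≤ 1 / 2) :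
    ∃ u ∈ Icc (0:ℝ) 1, x = u / (1 + u) := by
  have h1 : 0 < 1 - x := by linarith
  refine ⟨x / (1 - x), ⟨by have := hx.1; positivity, by rw [div_le_one h1]; linarith⟩, ?_⟩
  have h2 : 1 + x / (1 - x) = 1 / (1 - x) := by field_simp; ring
  rw [h2]; field_simp

lemma exists_B {x : ℝ} (hx : x ∈ Icc (0:ℝ) 1) (h : 1 / 2 ≤ x) :
    ∃ u ∈ Icc (0:ℝ) 1, x = 1 / (1 + u) := by
  have h1 : 0 < x := by linarith
  refine ⟨(1 - x) / x, ⟨by have := hx.2; apply div_nonneg <;> linarith, by
    rw [div_le_one h1]; linarith⟩, ?_⟩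
  have h2 : 1 + (1 - x) / x = 1 / x := by field_simp; ring
  rw [h2]; field_simp

lemma Q_mono_aux (k : ℕ) : ∀ x ∈ Icc (0:ℝ) 1, ∀ y ∈ Icc (0:ℝ) 1, x ≤ y → Q x - Q y ≤ (1/2:ℝ) ^ k := by
  induction k with
  | zero =>
    intro x hx y hy _
    have h1 := Q_le_one hx
    have h2 := Q_nonneg hy
    simp only [pow_zero]; linarith
  | succ k ih =>
    intro x hx y hy hxy
    have hp : (0:ℝ) < (1/2:ℝ) ^ (k + 1) := by positivity
    rcases le_total y (1/2) with hy2 | hy2
    · obtain ⟨u, hu, rfl⟩ := exists_A hx (hxy.trans hy2)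
      obtain ⟨v, hv, rfl⟩ := exists_A hy hy2
      rw [Q_A hu, Q_A hv]
      have huv : u ≤ v := by
        have h1 : 0 < 1 + u := by linarith [hu.1]
        have h2 : 0 < 1 + v := by linarith [hv.1]
        rw [div_le_div_iff₀ h1 h2] at hxy
        nlinarith
      have := ih u hu v hv huv
      rw [pow_succ]; linarith
    · rcases le_total x (1/2) with hx2 | hx2
      · obtain ⟨u, hu, rfl⟩ := exists_A hx hx2
        obtain ⟨v, hv, rfl⟩ := exists_B hy hy2
        rw [Q_A hu, Q_B hv]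
        have h1 := Q_le_one hu
        have h2 := Q_le_one hv
        linarith
      · obtain ⟨u, hu, rfl⟩ := exists_B hx hx2
        obtain ⟨v, hv, rfl⟩ := exists_B hy hy2
        rw [Q_B hu, Q_B hv]
        have huv : v ≤ u := by
          have h1 : 0 < 1 + u := by linarith [hu.1]
          have h2 : 0 < 1 + v := by linarith [hv.1]
          rw [div_le_div_iff₀ h1 h2] at hxy
          linarith
        have := ih v hv u hu huv
        rw [pow_succ]; linarith

lemma Q_mono {x y : ℝ} (hx : x ∈ Icc (0:ℝ) 1) (hy : y ∈ Icc (0:ℝ) 1) (hxy : x ≤ y) : Q x ≤ Q y := by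
  have h1 : Tendsto (fun k : ℕ => (1/2:ℝ) ^ k) atTop (𝓝 0) :=
    tendsto_pow_atTop_nhds_zero_of_lt_one (by norm_num) (by norm_num)
  have h2 := ge_of_tendsto' h1 (fun k => Q_mono_aux k x hx y hy hxy)
  linarith

lemma Q_continuousOn : ContinuousOn Q (Icc 0 1) := by
  rw [Metric.continuousOn_iff]
  intro x hx ε hε
  have h1 : Tendsto (fun k : ℕ => 8 * (1/2:ℝ) ^ k) atTop (𝓝 (8 * 0)) :=
    (tendsto_pow_atTop_nhds_zero_of_lt_one (by norm_num) (by norm_num)).const_mul 8
  rw [mul_zero] at h1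
  obtain ⟨k, hk⟩ := (h1.eventually_lt_const hε).exists
  refine ⟨(1/4:ℝ) ^ k, by positivity, fun y hy hd => ?_⟩
  rw [Real.dist_eq] at hd ⊢
  rcases le_total x y with h | h
  · have h3 := Q_holder k x hx y hy h (by rw [abs_of_nonneg (by linarith)] at hd; exact hd.le)
    exact lt_of_le_of_lt h3 hk
  · have h3 := Q_holder k y hy x hx h (by
      rw [abs_of_nonpos (by linarith)] at hd; linarith)
    rw [abs_sub_comm] at h3
    exact lt_of_le_of_lt h3 hk

/-- clamp to `[0,1]` -/
def clamp (x : ℝ) : ℝ := max 0 (min x 1)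

lemma clamp_mem (x : ℝ) : clamp x ∈ Icc (0:ℝ) 1 :=
  ⟨le_max_left _ _, max_le zero_le_one (min_le_right _ _)⟩

lemma clamp_mono {x y : ℝ} (h : x ≤ y) : clamp x ≤ clamp y :=
  max_le_max le_rfl (min_le_min h le_rfl)

lemma clamp_cont : Continuous clamp := by unfold clamp; fun_prop

lemma Qc_cont : Continuous (fun x => Q (clamp x)) :=
  Q_continuousOn.comp_continuous clamp_cont clamp_mem

/-- the Stieltjes function of the Minkowski measure -/
def stj : StieltjesFunction ℝ where
  toFun x := Q (clamp x)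
  mono' _ _ h := Q_mono (clamp_mem _) (clamp_mem _) (clamp_mono h)
  right_continuous' _ := Qc_cont.continuousWithinAt

lemma stj_apply (x : ℝ) : stj x = Q (clamp x) := rfl

lemma exists_measure : ∃ μ : Measure ℝ, IsProbabilityMeasure μ ∧
    ∀ x ∈ Icc (0:ℝ) 1, μ (Icc 0 x) = ENNReal.ofReal (qm x) := by
  refine ⟨stj.measure, ?_, ?_⟩
  · apply stj.isProbabilityMeasure
    · apply tendsto_const_nhds.congr'
      filter_upwards [eventually_le_atBot (0:ℝ)] with x hx
      rw [stj_apply]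
      have : clamp x = 0 := by
        unfold clamp
        rw [max_eq_left]; exact (min_le_left _ _).trans hx
      rw [this, Q_zero]
    · apply tendsto_const_nhds.congr'
      filter_upwards [eventually_ge_atTop (1:ℝ)] with x hx
      rw [stj_apply]
      have : clamp x = 1 := by
        unfold clamp
        rw [min_eq_right hx, max_eq_right zero_le_one]
      rw [this, Q_one]
  · intro x hx
    rw [StieltjesFunction.measure_Icc, qm_eq]
    have h1 : Function.leftLim (⇑stj) 0 = stj 0 := by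
      apply ContinuousWithinAt.leftLim_eq
      exact Qc_cont.continuousWithinAt
    have h2 : clamp x = x := by
      unfold clamp
      rw [min_eq_left hx.2, max_eq_right hx.1]
    have h3 : clamp 0 = 0 := by simp [clamp]
    rw [h1, stj_apply, stj_apply, h2, h3, Q_zero, sub_zero]

/-- **Main theorem.** The Minkowski measure exists; its minimal carrier capacity is `1/4`; and for
its orthonormal polynomials `(a_1 ⋯ a_n)^{1/n} → 1/4`, so that the limit `G` equals `c(μ)`. -/
theorem result :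
    (∃ μ : Measure ℝ, IsProbabilityMeasure μ ∧
      ∀ x ∈ Icc (0:ℝ) 1, μ (Icc 0 x) = ENNReal.ofReal (qm x)) ∧
    ∀ (μ : Measure ℝ) [IsProbabilityMeasure μ],
      (∀ x ∈ Icc (0:ℝ) 1, μ (Icc 0 x) = ENNReal.ofReal (qm x)) →
      carrierCap μ = ENNReal.ofReal (1 / 4) ∧
      ∀ (p : ℕ → ℝ[X]) (a b : ℕ → ℝ), IsOrthonormalSystem μ p a b →
        Tendsto (fun n : ℕ => (∏ i ∈ Finset.range n, a (i + 1)) ^ ((1:ℝ) / n)) atTop (𝓝 (1 / 4)) ∧
        ∀ G : ℝ, Tendsto (fun n : ℕ => (∏ i ∈ Finset.range n, a (i + 1)) ^ ((1:ℝ) / n)) atTop (𝓝 G) →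
          ENNReal.ofReal G = carrierCap μ := by
  refine ⟨exists_measure, fun μ _ hμ => ⟨carrierCap_eq hμ, fun p a b h => ⟨g_tendsto hμ h, ?_⟩⟩⟩
  intro G hG
  rw [carrierCap_eq hμ, tendsto_nhds_unique hG (g_tendsto hμ h)]

end

end Pool.Agent.Results.MP_bff676_an.CarrierCapacity
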